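import Mathlib

set_option autoImplicit false

namespace Pool.Agent.helper9.Tors

/-- The divisor bound. -/
theorem divisor_bound (ε : ℝ) (hε : 0 < ε) :
    ∃ C : ℝ, 0 < C ∧ ∀ n : ℕ, n ≠ 0 → ((n.divisors.card : ℕ) : ℝ) ≤ C * (n : ℝ) ^ ε := by
  classical
  obtain ⟨k, hk⟩ := exists_nat_gt (1 / ε)
  have hlog : 0 < Real.log 2 := Real.log_pos (by norm_num)
  set A : ℝ := 1 + 1 / (ε * Real.log 2) with hA
  have hA1 : 1 ≤ A := by
    rw [hA]
    have : 0 ≤ 1 / (ε * Real.log 2) := by positivity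
    linarith
  have hA0 : 0 < A := by linarith
  refine ⟨A ^ (2 ^ k), by positivity, ?_⟩
  intro n hn
  -- local bounds
  have hloc : ∀ q ∈ n.primeFactors, ((n.factorization q + 1 : ℕ) : ℝ)
      ≤ (if q < 2 ^ k then A else 1) * ((q : ℝ) ^ (n.factorization q)) ^ ε := by
    intro q hq
    have hqp : q.Prime := Nat.prime_of_mem_primeFactors hq
    set a := n.factorization q
    have hq2 : (2 : ℝ) ≤ q := by exact_mod_cast hqp.two_le
    have hbase : (1 : ℝ) + a * (ε * Real.log 2) ≤ ((2 : ℝ) ^ a) ^ ε := by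
      have h1 : ((2 : ℝ) ^ a) ^ ε = Real.exp (a * (ε * Real.log 2)) := by
        rw [Real.rpow_def_of_pos (by positivity), Real.log_pow]
        congr 1; ring
      rw [h1]
      linarith [Real.add_one_le_exp ((a : ℝ) * (ε * Real.log 2))]
    have hmono : ((2 : ℝ) ^ a) ^ ε ≤ ((q : ℝ) ^ a) ^ ε :=
      Real.rpow_le_rpow (by positivity) (pow_le_pow_left₀ (by norm_num) hq2 a) hε.le
    split_ifs with hlt
    · have h2 : ((a + 1 : ℕ) : ℝ) ≤ A * (1 + a * (ε * Real.log 2)) := by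
        push_cast
        have hel : 0 < ε * Real.log 2 := by positivity
        have h3 : A * (1 + a * (ε * Real.log 2))
            = 1 + a * (ε * Real.log 2) + 1 / (ε * Real.log 2) + a := by
          rw [hA]
          field_simp
          ring
        rw [h3]
        have : 0 ≤ (a : ℝ) * (ε * Real.log 2) := by positivity
        have : 0 ≤ 1 / (ε * Real.log 2) := by positivity
        linarith
      calc ((a + 1 : ℕ) : ℝ) ≤ A * (1 + a * (ε * Real.log 2)) := h2
        _ ≤ A * ((q : ℝ) ^ a) ^ ε := mul_le_mul_of_nonneg_left (hbase.trans hmono) hA0.le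
    · rw [one_mul]
      -- `q ^ ε ≥ 2`
      have h3 : (2 : ℝ) ≤ (q : ℝ) ^ ε := by
        have h4 : ((2 : ℝ) ^ k) ≤ (q : ℝ) := by
          have : 2 ^ k ≤ q := not_lt.mp hlt
          exact_mod_cast this
        have h5 : (2 : ℝ) ≤ ((2 : ℝ) ^ k) ^ ε := by
          rw [← Real.rpow_natCast, ← Real.rpow_mul (by norm_num)]
          calc (2 : ℝ) = (2 : ℝ) ^ (1 : ℝ) := (Real.rpow_one _).symm
            _ ≤ (2 : ℝ) ^ ((k : ℝ) * ε) := by
              apply Real.rpow_le_rpow_of_exponent_le (by norm_num)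
              rw [div_lt_iff₀ hε] at hk
              linarith
        exact h5.trans (Real.rpow_le_rpow (by positivity) h4 hε.le)
      have h6 : ((q : ℝ) ^ a) ^ ε = ((q : ℝ) ^ ε) ^ a := by
        rw [← Real.rpow_natCast, ← Real.rpow_natCast, ← Real.rpow_mul (by positivity),
          ← Real.rpow_mul (by positivity), mul_comm]
      rw [h6]
      calc ((a + 1 : ℕ) : ℝ) ≤ (2 : ℝ) ^ a := by
            exact_mod_cast Nat.lt_two_pow_self
        _ ≤ ((q : ℝ) ^ ε) ^ a := pow_le_pow_left₀ (by norm_num) h3 a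
  rw [Nat.card_divisors hn]
  push_cast
  have hnprod : (n : ℝ) ^ ε = ∏ q ∈ n.primeFactors, ((q : ℝ) ^ (n.factorization q)) ^ ε := by
    rw [Real.finsetProd_rpow _ _ (fun q _ => by positivity)]
    congr 1
    have := Nat.prod_factorization_pow_eq_self hn
    conv_lhs => rw [← this]
    rw [Finsupp.prod]
    push_cast
    rfl
  rw [hnprod]
  calc ∏ q ∈ n.primeFactors, ((n.factorization q : ℝ) + 1)
      ≤ ∏ q ∈ n.primeFactors, ((if q < 2 ^ k then A else 1) *
          ((q : ℝ) ^ (n.factorization q)) ^ ε) := by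
        apply Finset.prod_le_prod
        · intro q _; positivity
        · intro q hq
          have := hloc q hq
          push_cast at this
          exact this
    _ = (∏ q ∈ n.primeFactors, (if q < 2 ^ k then A else 1)) *
          ∏ q ∈ n.primeFactors, ((q : ℝ) ^ (n.factorization q)) ^ ε := Finset.prod_mul_distrib
    _ ≤ A ^ (2 ^ k) * ∏ q ∈ n.primeFactors, ((q : ℝ) ^ (n.factorization q)) ^ ε := by
        apply mul_le_mul_of_nonneg_right
        · rw [← Finset.prod_filter, Finset.prod_const]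
          apply pow_le_pow_right₀ hA1
          calc (n.primeFactors.filter (fun q => q < 2 ^ k)).card
              ≤ (Finset.range (2 ^ k)).card := by
                apply Finset.card_le_card
                intro q hq
                rw [Finset.mem_filter] at hq
                exact Finset.mem_range.mpr hq.2
            _ = 2 ^ k := Finset.card_range _
        · apply Finset.prod_nonneg
          intro q _; positivity

/-- The number of small roots of `x² ≡ 4 m^p` modulo `b²` is at most the number of divisors. -/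
theorem roots_le_divisors (m b T : ℕ) (a : ℤ) (hmodd : ¬ 2 ∣ m) (hb : 0 < b) (hT : 4 * T < b ^ 2)
    (ha : ∃ j : ℕ, a = 4 * (m : ℤ) ^ j)
    (S : Finset ℕ) (hS : ∀ x ∈ S, x ≤ T ∧ Nat.Coprime x m ∧ (b : ℤ) ^ 2 ∣ a - (x : ℤ) ^ 2) :
    S.card ≤ ((b ^ 2).divisors).card := by
  classical
  rcases S.eq_empty_or_nonempty with rfl | ⟨x₀, hx₀⟩
  · simp
  obtain ⟨h0T, h0c, h0d⟩ := hS x₀ hx₀
  have hb2 : (0 : ℤ) < (b : ℤ) ^ 2 := by positivity
  let f : ℕ → ℕ := fun x => Int.gcd ((b : ℤ) ^ 2) ((x : ℤ) - x₀)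
  have hmaps : ∀ x ∈ S, f x ∈ (b ^ 2).divisors := by
    intro x _
    rw [Nat.mem_divisors]
    refine ⟨?_, by positivity⟩
    have : ((f x : ℕ) : ℤ) ∣ (b : ℤ) ^ 2 := Int.gcd_dvd_left ..
    exact_mod_cast this
  -- decomposition for each `x`
  have hdec : ∀ x ∈ S, ∃ e : ℤ, (f x : ℤ) * e = (b : ℤ) ^ 2 ∧ e ∣ (x : ℤ) + x₀ := by
    intro x hx
    obtain ⟨hxT, hxc, hxd⟩ := hS x hx
    have hfd : ((f x : ℕ) : ℤ) ∣ (b : ℤ) ^ 2 := Int.gcd_dvd_left ..
    obtain ⟨e, he⟩ := hfd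
    refine ⟨e, he.symm, ?_⟩
    have hf0 : ((f x : ℕ) : ℤ) ≠ 0 := by
      intro h0
      rw [h0, zero_mul] at he
      exact hb2.ne' he
    have hbez := Int.gcd_eq_gcd_ab ((b : ℤ) ^ 2) ((x : ℤ) - x₀)
    set u := Int.gcdA ((b : ℤ) ^ 2) ((x : ℤ) - x₀)
    set v := Int.gcdB ((b : ℤ) ^ 2) ((x : ℤ) - x₀)
    have h1 : (b : ℤ) ^ 2 ∣ ((x : ℤ) - x₀) * (x + x₀) := by
      have : ((x : ℤ) - x₀) * (x + x₀) = (a - (x₀ : ℤ) ^ 2) - (a - (x : ℤ) ^ 2) := by ring
      rw [this]
      exact dvd_sub h0d hxd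
    have h2 : (b : ℤ) ^ 2 ∣ (f x : ℤ) * ((x : ℤ) + x₀) := by
      have : (f x : ℤ) * ((x : ℤ) + x₀) = (b : ℤ) ^ 2 * (u * (x + x₀))
          + v * (((x : ℤ) - x₀) * (x + x₀)) := by
        have hfx : (f x : ℤ) = (b : ℤ) ^ 2 * u + ((x : ℤ) - x₀) * v := hbez
        rw [hfx]; ring
      rw [this]
      exact dvd_add (dvd_mul_right _ _) (Dvd.dvd.mul_left h1 _)
    rw [he] at h2
    exact Int.dvd_of_mul_dvd_mul_left hf0 h2
  have hinj : Set.InjOn f (S : Set ℕ) := by
    intro x hx x' hx' hxx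
    rw [Finset.mem_coe] at hx hx'
    obtain ⟨e, he1, he2⟩ := hdec x hx
    obtain ⟨e', he1', he2'⟩ := hdec x' hx'
    obtain ⟨hxT, hxc, hxd⟩ := hS x hx
    obtain ⟨hxT', hxc', hxd'⟩ := hS x' hx'
    rw [← hxx] at he1'
    have hf0 : ((f x : ℕ) : ℤ) ≠ 0 := by
      intro h0
      rw [h0, zero_mul] at he1
      exact hb2.ne he1
    have hee : e = e' := by
      have : (f x : ℤ) * e = (f x : ℤ) * e' := by rw [he1, he1']
      exact mul_left_cancel₀ hf0 this
    subst hee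
    set d : ℤ := (f x : ℤ) with hd
    have hdx : d ∣ (x : ℤ) - x₀ := Int.gcd_dvd_right ..
    have hdx' : d ∣ (x' : ℤ) - x₀ := by
      have h1 : ((f x' : ℕ) : ℤ) ∣ (x' : ℤ) - x₀ := Int.gcd_dvd_right ..
      rw [← hxx] at h1
      exact h1
    have hD1 : d ∣ (x : ℤ) - x' := by
      have : (x : ℤ) - x' = ((x : ℤ) - x₀) - (x' - x₀) := by ring
      rw [this]; exact dvd_sub hdx hdx'
    have hD2 : e ∣ (x : ℤ) - x' := by
      have : (x : ℤ) - x' = ((x : ℤ) + x₀) - (x' + x₀) := by ring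
      rw [this]; exact dvd_sub he2 he2'
    -- the gcd of `d` and `e` divides `4`
    obtain ⟨j, hj⟩ := ha
    set g : ℕ := Int.gcd d e with hg
    have hgd : (g : ℤ) ∣ d := Int.gcd_dvd_left ..
    have hge : (g : ℤ) ∣ e := Int.gcd_dvd_right ..
    have hg2b : (g : ℤ) ^ 2 ∣ (b : ℤ) ^ 2 := by
      rw [← he1, sq]; exact mul_dvd_mul hgd hge
    have hgb : (g : ℤ) ∣ b := (Int.pow_dvd_pow_iff two_ne_zero).mp hg2b
    have hg2x : (g : ℤ) ∣ 2 * x₀ := by
      have h1 : (g : ℤ) ∣ (x : ℤ) - x₀ := hgd.trans hdx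
      have h2 : (g : ℤ) ∣ (x : ℤ) + x₀ := hge.trans he2
      have : 2 * (x₀ : ℤ) = ((x : ℤ) + x₀) - (x - x₀) := by ring
      rw [this]; exact dvd_sub h2 h1
    have hg16 : (g : ℤ) ^ 2 ∣ 16 * (m : ℤ) ^ j := by
      have h1 : (g : ℤ) ^ 2 ∣ 4 * (a - (x₀ : ℤ) ^ 2) := Dvd.dvd.mul_left (hg2b.trans h0d) _
      have h2 : (g : ℤ) ^ 2 ∣ (2 * (x₀ : ℤ)) ^ 2 := pow_dvd_pow_of_dvd hg2x 2
      have h3 := dvd_add h1 h2
      have : 4 * (a - (x₀ : ℤ) ^ 2) + (2 * (x₀ : ℤ)) ^ 2 = 16 * (m : ℤ) ^ j := by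
        rw [hj]; ring
      rwa [this] at h3
    have hgm : Nat.Coprime g m := by
      rw [Nat.coprime_iff_gcd_eq_one]
      by_contra hne
      obtain ⟨q, hq, hqd⟩ := Nat.exists_prime_and_dvd hne
      have hqg : q ∣ g := hqd.trans (Nat.gcd_dvd_left _ _)
      have hqm : q ∣ m := hqd.trans (Nat.gcd_dvd_right _ _)
      have hq2 : (q : ℤ) ∣ 2 * x₀ := (Int.natCast_dvd_natCast.mpr hqg).trans hg2x
      have hq3 : q ∣ 2 * x₀ := by exact_mod_cast hq2
      rcases (hq.dvd_mul).mp hq3 with h | h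
      · have : q = 2 := (Nat.prime_dvd_prime_iff_eq hq Nat.prime_two).mp h
        rw [this] at hqm
        exact hmodd hqm
      · have := Nat.dvd_gcd h hqm
        rw [h0c] at this
        exact hq.one_lt.ne' (Nat.dvd_one.mp this)
    have hg4 : g ∣ 4 := by
      have h1 : g ^ 2 ∣ 16 * m ^ j := by exact_mod_cast hg16
      have h2 : Nat.Coprime (g ^ 2) (m ^ j) := Nat.Coprime.pow _ _ hgm
      have h3 : g ^ 2 ∣ 4 ^ 2 := by
        norm_num
        exact h2.dvd_of_dvd_mul_right h1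
      exact (Nat.pow_dvd_pow_iff two_ne_zero).mp h3
    have hgb2 : (b : ℤ) ^ 2 ∣ 4 * ((x : ℤ) - x') := by
      have hbez := Int.gcd_eq_gcd_ab d e
      have h1 : d * e ∣ (g : ℤ) * ((x : ℤ) - x') := by
        have : (g : ℤ) * ((x : ℤ) - x') = Int.gcdA d e * (d * ((x : ℤ) - x'))
            + Int.gcdB d e * (((x : ℤ) - x') * e) := by
          rw [hg, hbez]; ring
        rw [this]
        refine dvd_add (Dvd.dvd.mul_left ?_ _) (Dvd.dvd.mul_left ?_ _)
        · exact mul_dvd_mul_left _ hD2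
        · exact mul_dvd_mul_right hD1 _
      rw [← he1]
      refine h1.trans ?_
      apply mul_dvd_mul_right
      exact_mod_cast hg4
    have hlt : |4 * ((x : ℤ) - x')| < (b : ℤ) ^ 2 := by
      have h1 : (4 : ℤ) * T < (b : ℤ) ^ 2 := by exact_mod_cast hT
      have h2 : (x : ℤ) ≤ T := by exact_mod_cast hxT
      have h3 : (x' : ℤ) ≤ T := by exact_mod_cast hxT'
      have h4 : (0 : ℤ) ≤ x := by positivity
      have h5 : (0 : ℤ) ≤ x' := by positivity
      rw [abs_lt]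
      constructor <;> linarith
    have := Int.eq_zero_of_abs_lt_dvd hgb2 hlt
    omega
  calc S.card = (S.image f).card := (Finset.card_image_of_injOn hinj).symm
    _ ≤ _ := Finset.card_le_card (by
      intro y hy
      obtain ⟨x, hx, rfl⟩ := Finset.mem_image.mp hy
      exact hmaps x hx)

end Pool.Agent.helper9.Tors
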