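import Mathlib

set_option autoImplicit false

open NumberField Module

namespace Pool.Agent.helper9.Tors

variable {K : Type} [Field K] [NumberField K]

/-- Trace, norm and discriminant of an integer of a quadratic field. -/
theorem quad_rel' (h2 : finrank ℚ K = 2) (e : Basis (Fin 2) ℤ (𝓞 K)) (α : 𝓞 K) :
    ∃ t n : ℤ, α ^ 2 - (t : 𝓞 K) * α + (n : 𝓞 K) = 0 ∧ Algebra.norm ℤ α = n ∧
      t ^ 2 - 4 * n = (e.toMatrix ![1, α]).det ^ 2 * discr K := by
  have hr : finrank ℤ (𝓞 K) = 2 := by rw [RingOfIntegers.rank, h2]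
  set M := Algebra.leftMulMatrix e α with hM
  have hCH : α ^ 2 - (M.trace : 𝓞 K) * α + (M.det : 𝓞 K) = 0 := by
    apply Algebra.leftMulMatrix_injective e
    have h := Matrix.aeval_self_charpoly M
    rw [Matrix.charpoly_fin_two] at h
    simp only [map_add, map_sub, map_mul, map_pow, Polynomial.aeval_X, Polynomial.aeval_C] at h
    rw [map_add, map_sub, map_mul, map_pow, map_zero, ← hM]
    rw [← h]
    simp
  have htr : Algebra.trace ℤ (𝓞 K) α = M.trace := Algebra.trace_eq_matrix_trace e α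
  have htr1 : Algebra.trace ℤ (𝓞 K) 1 = 2 := by
    have := Algebra.trace_algebraMap (R := ℤ) (S := 𝓞 K) 1
    simpa [hr] using this
  have htr2 : Algebra.trace ℤ (𝓞 K) (α * α) = M.trace ^ 2 - 2 * M.det := by
    have h1 : α * α = (M.trace : ℤ) • α - (M.det : ℤ) • (1 : 𝓞 K) := by
      rw [zsmul_eq_mul, zsmul_eq_mul]
      linear_combination hCH
    rw [h1, map_sub, map_zsmul, map_zsmul, htr, htr1]
    simp only [smul_eq_mul]
    ring
  refine ⟨M.trace, M.det, hCH, Algebra.norm_eq_matrix_det e α, ?_⟩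
  have hv : (![1, α] : Fin 2 → 𝓞 K) =
      Matrix.vecMul e ((e.toMatrix ![1, α]).map (algebraMap ℤ (𝓞 K))) := by
    funext j
    rw [← e.sum_toMatrix_smul_self ![1, α] j]
    simp only [Matrix.vecMul, dotProduct, Matrix.map_apply, Algebra.smul_def]
    exact Finset.sum_congr rfl (fun i _ => mul_comm _ _)
  have hd : Algebra.discr ℤ ![1, α] = (e.toMatrix ![1, α]).det ^ 2 * discr K := by
    rw [← NumberField.discr_eq_discr K e, ← Algebra.discr_of_matrix_vecMul, ← hv]
  have h00 : Algebra.traceMatrix ℤ (![1, α] : Fin 2 → 𝓞 K) 0 0 = 2 := by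
    rw [Algebra.traceMatrix_apply, Algebra.traceForm_apply]
    simpa using htr1
  have h01 : Algebra.traceMatrix ℤ (![1, α] : Fin 2 → 𝓞 K) 0 1 = M.trace := by
    rw [Algebra.traceMatrix_apply, Algebra.traceForm_apply]
    simpa using htr
  have h10 : Algebra.traceMatrix ℤ (![1, α] : Fin 2 → 𝓞 K) 1 0 = M.trace := by
    rw [Algebra.traceMatrix_apply, Algebra.traceForm_apply]
    simpa using htr
  have h11 : Algebra.traceMatrix ℤ (![1, α] : Fin 2 → 𝓞 K) 1 1 = M.trace ^ 2 - 2 * M.det := by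
    rw [Algebra.traceMatrix_apply, Algebra.traceForm_apply]
    simpa using htr2
  rw [← hd, Algebra.discr_def, Matrix.det_fin_two (Algebra.traceMatrix ℤ (![1, α] : Fin 2 → 𝓞 K)),
    h00, h01, h10, h11]
  ring

/-- Trace, norm and discriminant of an integer of a quadratic field. -/
theorem quad_rel (h2 : finrank ℚ K = 2) (α : 𝓞 K) :
    ∃ t n b : ℤ, α ^ 2 - (t : 𝓞 K) * α + (n : 𝓞 K) = 0 ∧ Algebra.norm ℤ α = n ∧
      t ^ 2 - 4 * n = b ^ 2 * discr K := by
  have hr : finrank ℤ (𝓞 K) = 2 := by rw [RingOfIntegers.rank, h2]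
  obtain ⟨t, n, h1, h3, h4⟩ := quad_rel' h2 (Module.finBasisOfFinrankEq ℤ (𝓞 K) hr) α
  exact ⟨t, n, _, h1, h3, h4⟩

/-- An integer of an imaginary quadratic field is rational or has large norm. -/
theorem norm_ge (h2 : finrank ℚ K = 2) (hD : discr K < 0) (α : 𝓞 K) :
    (∃ a : ℤ, α = (a : 𝓞 K)) ∨ -discr K ≤ 4 * Algebra.norm ℤ α := by
  obtain ⟨t, n, b, h1, hn, h3⟩ := quad_rel h2 α
  rw [hn]
  by_cases hb : b = 0
  · left
    rw [hb] at h3
    have h4 : t ^ 2 = 4 * n := by linarith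
    have h5 : (2 : ℤ) ∣ t := by
      have : (2 : ℤ) ∣ t ^ 2 := ⟨2 * n, by rw [h4]; ring⟩
      exact Int.prime_two.dvd_of_dvd_pow this
    obtain ⟨a, ha⟩ := h5
    refine ⟨a, ?_⟩
    have h6 : n = a ^ 2 := by rw [ha] at h4; linarith [h4, (by ring : (2 * a) ^ 2 = 4 * a ^ 2)]
    have h7 : (α - (a : 𝓞 K)) ^ 2 = 0 := by
      rw [ha, h6] at h1
      push_cast at h1
      linear_combination h1
    have := pow_eq_zero_iff (two_ne_zero) |>.mp h7
    exact sub_eq_zero.mp this
  · right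
    have hb2 : 1 ≤ b ^ 2 := by
      have : 0 < b ^ 2 := by positivity
      omega
    nlinarith [sq_nonneg t]

/-- If `α` satisfies an integral quadratic equation of negative discriminant, its norm is the
constant term. -/
theorem norm_eq (h2 : finrank ℚ K = 2) (α : 𝓞 K) (T N : ℤ)
    (h : α ^ 2 - (T : 𝓞 K) * α + (N : 𝓞 K) = 0) (hneg : T ^ 2 - 4 * N < 0) :
    Algebra.norm ℤ α = N := by
  obtain ⟨t, n, b, h1, hn, h3⟩ := quad_rel h2 α
  rw [hn]
  by_cases hT : t = T
  · subst hT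
    have : ((n : ℤ) : 𝓞 K) = ((N : ℤ) : 𝓞 K) := by linear_combination h1 - h
    exact_mod_cast this
  · exfalso
    -- then `(T - t) α = N - n`
    have h4 : ((T - t : ℤ) : 𝓞 K) * α = ((N - n : ℤ) : 𝓞 K) := by
      push_cast
      linear_combination h1 - h
    set u : ℤ := T - t with hu
    set v : ℤ := N - n with hv
    have hu0 : u ≠ 0 := fun h0 => hT (by omega)
    -- multiply the equation by `u²`
    have h5 : ((v ^ 2 - T * (u * v) + N * u ^ 2 : ℤ) : 𝓞 K) = 0 := by
      push_cast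
      rw [← h4]
      have : (u : 𝓞 K) ^ 2 * (α ^ 2 - (T : 𝓞 K) * α + (N : 𝓞 K)) = 0 := by rw [h, mul_zero]
      linear_combination this
    have h6 : v ^ 2 - T * (u * v) + N * u ^ 2 = 0 := by exact_mod_cast h5
    have h7 : (2 * v - T * u) ^ 2 = (T ^ 2 - 4 * N) * u ^ 2 := by nlinarith
    have h8 : 0 < u ^ 2 := by positivity
    nlinarith [sq_nonneg (2 * v - T * u)]

/-- An imaginary quadratic field contains a square root of its discriminant. -/
theorem exists_sqrt (h2 : finrank ℚ K = 2) : ∃ δ : K, δ ^ 2 = ((discr K : ℤ) : K) := by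
  have hr : finrank ℤ (𝓞 K) = 2 := by rw [RingOfIntegers.rank, h2]
  let e : Basis (Fin 2) ℤ (𝓞 K) := Module.finBasisOfFinrankEq ℤ (𝓞 K) hr
  have hex : ∃ α : 𝓞 K, ¬ ∃ a : ℤ, α = (a : 𝓞 K) := by
    by_contra hcon
    push Not at hcon
    obtain ⟨a, ha⟩ := hcon (e 0)
    obtain ⟨b, hb⟩ := hcon (e 1)
    have hli := e.linearIndependent
    rw [Fintype.linearIndependent_iff] at hli
    have h0 := hli ![b, -a] (by
      simp only [Fin.sum_univ_two, Matrix.cons_val_zero, Matrix.cons_val_one, ha, hb,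
        zsmul_eq_mul]
      push_cast
      ring) 0
    simp only [Matrix.cons_val_zero] at h0
    have h1 := e.ne_zero 1
    rw [hb, h0] at h1
    simp at h1
  obtain ⟨α, hα⟩ := hex
  obtain ⟨t, n, b, h1, hn, h3⟩ := quad_rel h2 α
  have hb : b ≠ 0 := by
    rintro rfl
    apply hα
    have h4 : t ^ 2 = 4 * n := by linarith
    have h5 : (2 : ℤ) ∣ t := by
      have : (2 : ℤ) ∣ t ^ 2 := ⟨2 * n, by rw [h4]; ring⟩
      exact Int.prime_two.dvd_of_dvd_pow this
    obtain ⟨a, ha⟩ := h5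
    refine ⟨a, ?_⟩
    have h6 : n = a ^ 2 := by rw [ha] at h4; linarith [h4, (by ring : (2 * a) ^ 2 = 4 * a ^ 2)]
    have h7 : (α - (a : 𝓞 K)) ^ 2 = 0 := by
      rw [ha, h6] at h1
      push_cast at h1
      linear_combination h1
    have := pow_eq_zero_iff (two_ne_zero) |>.mp h7
    exact sub_eq_zero.mp this
  have hbK : (b : K) ≠ 0 := by exact_mod_cast hb
  refine ⟨(2 * (α : K) - t) / b, ?_⟩
  have h1K : (α : K) ^ 2 - (t : K) * (α : K) + (n : K) = 0 := by
    have := congrArg (fun z : 𝓞 K => (z : K)) h1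
    simpa using this
  have h3K : (t : K) ^ 2 - 4 * (n : K) = (b : K) ^ 2 * ((discr K : ℤ) : K) := by
    exact_mod_cast congrArg (fun z : ℤ => (z : K)) h3
  rw [div_pow, div_eq_iff (pow_ne_zero 2 hbK)]
  linear_combination 4 * h1K + h3K

end Pool.Agent.helper9.Tors
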