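import Pool.Agent.helper9.Tors.Ineq

set_option autoImplicit false

namespace Pool.Agent.helper9.Tors

open Finset Filter Topology

theorem ev_rpow (s : ℝ) (hs : 0 < s) (C : ℝ) : ∀ᶠ N : ℕ in atTop, C ≤ (N : ℝ) ^ s := by
  have h : Tendsto (fun N : ℕ => (N : ℝ) ^ s) atTop atTop :=
    (tendsto_rpow_atTop hs).comp tendsto_natCast_atTop_atTop
  exact h.eventually_ge_atTop C

/-- Choice of `Z`. -/
theorem floor_bounds (t : ℝ) (ht : 2 ≤ t) : t / 2 ≤ (⌊t⌋₊ : ℝ) ∧ (⌊t⌋₊ : ℝ) ≤ t := by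
  constructor
  · have := Nat.lt_floor_add_one t
    linarith
  · exact Nat.floor_le (by linarith)

/-- The parameters: for large `N` there are `Z, Y` with all the size conditions, and the number of
realised triples is large. -/
theorem params (p : ℕ) (hp : 5 ≤ p) (a η : ℝ) (ha0 : 0 < a) (hη : 0 < η) (hη1 : η ≤ 1 / 2)
    (hpa : p * a < 1) (hpa2 : (7 : ℝ) / 10 ≤ p * a) (ha3 : a ≤ 1 / 4) :
    ∃ c : ℝ, 0 < c ∧ ∀ Z₁ : ℕ, ∀ᶠ N : ℕ in atTop, ∃ Z Y : ℕ, Z₁ ≤ Z ∧ 2 ≤ Y ∧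
      (N : ℝ) ^ a / 2 ≤ Z ∧ (Z : ℝ) ≤ (N : ℝ) ^ a ∧
      (Z ^ p) ^ 2 < 4 * (Z ^ 2) ^ p ∧ 4 * (16 * Z ^ 2) ^ p ≤ N * Y ^ 2 ∧
      c * (N : ℝ) ^ (1 / 2 + 2 * a - η) ≤ ((Rset p Z Y (Z ^ p)).card : ℝ) := by
  obtain ⟨Z₀, hZ₀⟩ := (eventually_atTop.mp (prm_card η hη hη1))
  set e : ℝ := p * a - 1 / 2 with he
  have he0 : 0 < e := by rw [he]; linarith
  set c₁ : ℝ := (1 / 2) ^ p / (16 * (4 ^ (p + 1)) ^ 2) with hc₁
  have hc₁0 : 0 < c₁ := by rw [hc₁]; positivity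
  refine ⟨c₁ / 8000, by positivity, ?_⟩
  intro Z₁
  have hexp1 : 0 < 1 - p * a := by linarith
  have hexp2 : 0 < 12 * e - 2 * (p * a) := by rw [he]; linarith
  filter_upwards [ev_rpow a ha0 (2 * (Z₁ + Z₀ + 40)), ev_rpow e he0 (Z₀ + 2),
    ev_rpow (1 - p * a) hexp1 (16 / c₁),
    ev_rpow (12 * e - 2 * (p * a)) hexp2 (4 * 16 ^ p + 1), eventually_ge_atTop 1]
    with N h1 h2 h3 h4 hN1
  set X : ℝ := (N : ℝ) with hX
  have hX1 : 1 ≤ X := by rw [hX]; exact_mod_cast hN1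
  have hX0 : 0 < X := by linarith
  set Z : ℕ := ⌊X ^ a⌋₊ with hZ
  have hXa : 2 ≤ X ^ a := by
    have : (0 : ℝ) ≤ Z₁ := by positivity
    have : (0 : ℝ) ≤ Z₀ := by positivity
    linarith
  obtain ⟨hZl, hZu⟩ := floor_bounds (X ^ a) hXa
  rw [← hZ] at hZl hZu
  have hZbig : ((Z₁ + Z₀ + 40 : ℕ) : ℝ) ≤ Z := by push_cast; linarith
  have hZbig' : Z₁ + Z₀ + 40 ≤ Z := by exact_mod_cast hZbig
  have hZpos : (0 : ℝ) < Z := by
    have : (0 : ℝ) < X ^ a := by positivity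
    linarith
  have hsX : 0 < √X := Real.sqrt_pos.mpr hX0
  set y : ℝ := 2 * 4 ^ p * (Z : ℝ) ^ p / √X with hy
  set Y : ℕ := ⌈y⌉₊ with hY
  -- bounds for `Z ^ p / √X`
  have hXpa : (X ^ a) ^ p = X ^ (p * a) := by
    rw [← Real.rpow_natCast, ← Real.rpow_mul hX0.le, mul_comm]
  have hXe : X ^ (p * a) / √X = X ^ e := by
    rw [Real.sqrt_eq_rpow, ← Real.rpow_sub hX0]
  have hup : (Z : ℝ) ^ p ≤ X ^ (p * a) := by
    rw [← hXpa]; exact pow_le_pow_left₀ hZpos.le hZu p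
  have hlo : (1 / 2) ^ p * X ^ (p * a) ≤ (Z : ℝ) ^ p := by
    rw [← hXpa, ← mul_pow]
    apply pow_le_pow_left₀ (by positivity)
    linarith
  have hyu : y ≤ 2 * 4 ^ p * X ^ e := by
    rw [hy, ← hXe, mul_div_assoc]
    apply mul_le_mul_of_nonneg_left _ (by positivity)
    exact div_le_div_of_nonneg_right hup hsX.le
  have hyl : X ^ e ≤ y := by
    have h5 : 2 * 4 ^ p * ((1 / 2) ^ p * X ^ (p * a)) / √X ≤ y := by
      rw [hy]
      apply div_le_div_of_nonneg_right _ hsX.le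
      exact mul_le_mul_of_nonneg_left hlo (by positivity)
    have h6 : 2 * (4 : ℝ) ^ p * ((1 / 2) ^ p * X ^ (p * a)) / √X = 2 * 2 ^ p * X ^ e := by
      rw [← hXe]
      have : (4 : ℝ) ^ p * (1 / 2) ^ p = 2 ^ p := by
        rw [← mul_pow]; norm_num
      calc 2 * (4 : ℝ) ^ p * ((1 / 2) ^ p * X ^ (p * a)) / √X
          = 2 * ((4 : ℝ) ^ p * (1 / 2) ^ p) * (X ^ (p * a) / √X) := by ring
        _ = _ := by rw [this]
    rw [h6] at h5
    have h7 : (1 : ℝ) ≤ 2 * 2 ^ p := by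
      have : (1 : ℝ) ≤ 2 ^ p := one_le_pow₀ (by norm_num)
      linarith
    have h8 : 0 < X ^ e := by positivity
    nlinarith
  have hXe1 : 1 ≤ X ^ e := Real.one_le_rpow hX1 he0.le
  have hy1 : 1 ≤ y := hXe1.trans hyl
  have hYl : X ^ e ≤ (Y : ℝ) := hyl.trans (Nat.le_ceil y)
  have hYu : (Y : ℝ) ≤ 4 ^ (p + 1) * X ^ e := by
    have h5 : (Y : ℝ) < y + 1 := Nat.ceil_lt_add_one (by linarith)
    have h6 : (4 : ℝ) ^ (p + 1) * X ^ e = 2 * (2 * 4 ^ p * X ^ e) := by ring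
    rw [h6]
    linarith
  have hYy : y ≤ (Y : ℝ) := Nat.le_ceil y
  have hY2 : ((Z₀ + 2 : ℕ) : ℝ) ≤ Y := by push_cast; linarith
  have hY2' : Z₀ + 2 ≤ Y := by exact_mod_cast hY2
  have hYpos : (0 : ℝ) < Y := by
    have : 0 < X ^ e := by positivity
    linarith
  -- the discriminant condition
  have hdisc : 4 * (16 * Z ^ 2) ^ p ≤ N * Y ^ 2 := by
    have h5 : (4 : ℝ) * (16 * (Z : ℝ) ^ 2) ^ p ≤ X * (Y : ℝ) ^ 2 := by
      have h6 : (y * √X) ^ 2 = 4 * (16 * (Z : ℝ) ^ 2) ^ p := by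
        rw [hy, div_mul_cancel₀ _ hsX.ne', mul_pow (16 : ℝ), ← pow_mul, mul_comm 2 p, pow_mul,
          show (16 : ℝ) = 4 ^ 2 by norm_num, ← pow_mul, mul_comm 2 p, pow_mul]
        ring
      have h7 : (√X) ^ 2 = X := Real.sq_sqrt hX0.le
      calc (4 : ℝ) * (16 * (Z : ℝ) ^ 2) ^ p = (y * √X) ^ 2 := h6.symm
        _ = y ^ 2 * X := by rw [mul_pow, h7]
        _ ≤ (Y : ℝ) ^ 2 * X := by
          apply mul_le_mul_of_nonneg_right _ hX0.le
          exact pow_le_pow_left₀ (by linarith) hYy 2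
        _ = X * (Y : ℝ) ^ 2 := mul_comm _ _
    rw [hX] at h5
    exact_mod_cast h5
  -- the number of steps
  set J : ℕ := Z ^ p / (4 * Y) ^ 2 with hJ
  have hYY : (0 : ℝ) < (4 * (Y : ℝ)) ^ 2 := by positivity
  have hJreal : c₁ * X ^ (1 - p * a) ≤ (Z : ℝ) ^ p / (4 * (Y : ℝ)) ^ 2 := by
    rw [le_div_iff₀ hYY]
    have h5 : (4 * (Y : ℝ)) ^ 2 ≤ 16 * (4 ^ (p + 1)) ^ 2 * X ^ (2 * e) := by
      have h6 : (4 * (Y : ℝ)) ^ 2 ≤ (4 * (4 ^ (p + 1) * X ^ e)) ^ 2 :=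
        pow_le_pow_left₀ (by positivity) (by linarith) 2
      have h7 : (X ^ e) ^ 2 = X ^ (2 * e) := by
        rw [← Real.rpow_natCast, ← Real.rpow_mul hX0.le]
        congr 1
        push_cast; ring
      calc (4 * (Y : ℝ)) ^ 2 ≤ (4 * (4 ^ (p + 1) * X ^ e)) ^ 2 := h6
        _ = 16 * (4 ^ (p + 1)) ^ 2 * (X ^ e) ^ 2 := by ring
        _ = _ := by rw [h7]
    have h8 : X ^ (1 - p * a) * X ^ (2 * e) = X ^ (p * a) := by
      rw [← Real.rpow_add hX0]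
      congr 1
      rw [he]; ring
    calc c₁ * X ^ (1 - p * a) * (4 * (Y : ℝ)) ^ 2
        ≤ c₁ * X ^ (1 - p * a) * (16 * (4 ^ (p + 1)) ^ 2 * X ^ (2 * e)) :=
          mul_le_mul_of_nonneg_left h5 (by positivity)
      _ = (c₁ * (16 * (4 ^ (p + 1)) ^ 2)) * (X ^ (1 - p * a) * X ^ (2 * e)) := by ring
      _ = (1 / 2) ^ p * X ^ (p * a) := by
          rw [h8, hc₁, div_mul_cancel₀ _ (by positivity)]
      _ ≤ (Z : ℝ) ^ p := hlo
  have hJ16 : 16 ≤ c₁ * X ^ (1 - p * a) := by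
    rw [div_le_iff₀ hc₁0] at h3
    linarith
  have hJl : c₁ / 2 * X ^ (1 - p * a) ≤ (J : ℝ) := by
    have h5 : (Z : ℝ) ^ p / (4 * (Y : ℝ)) ^ 2 < (J : ℝ) + 1 := by
      have h6 := Nat.lt_div_mul_add (a := Z ^ p) (b := (4 * Y) ^ 2) (by positivity)
      rw [← hJ] at h6
      rw [div_lt_iff₀ hYY]
      have h7 : ((Z ^ p : ℕ) : ℝ) < ((J * (4 * Y) ^ 2 + (4 * Y) ^ 2 : ℕ) : ℝ) := by
        exact_mod_cast h6
      push_cast at h7
      linarith
    linarith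
  have hJ8 : 8 ≤ J := by
    have : (8 : ℝ) ≤ J := by linarith
    exact_mod_cast this
  -- the twelfth power condition
  have hY12 : 4 * (16 * Z ^ 2) ^ p < Y ^ 12 := by
    have h5 : (4 : ℝ) * (16 * (Z : ℝ) ^ 2) ^ p < (Y : ℝ) ^ 12 := by
      have h6 : ((Z : ℝ) ^ p) ^ 2 ≤ X ^ (2 * (p * a)) := by
        have : (X ^ (p * a)) ^ 2 = X ^ (2 * (p * a)) := by
          rw [← Real.rpow_natCast, ← Real.rpow_mul hX0.le]
          congr 1
          push_cast; ring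
        rw [← this]
        exact pow_le_pow_left₀ (by positivity) hup 2
      have h7 : X ^ (12 * e) ≤ (Y : ℝ) ^ 12 := by
        have : (X ^ e) ^ 12 = X ^ (12 * e) := by
          rw [← Real.rpow_natCast, ← Real.rpow_mul hX0.le]
          congr 1
          push_cast; ring
        rw [← this]
        exact pow_le_pow_left₀ (by positivity) hYl 12
      have h8 : X ^ (12 * e - 2 * (p * a)) * X ^ (2 * (p * a)) = X ^ (12 * e) := by
        rw [← Real.rpow_add hX0]; congr 1; ring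
      have h9 : 0 < X ^ (2 * (p * a)) := by positivity
      calc (4 : ℝ) * (16 * (Z : ℝ) ^ 2) ^ p = 4 * 16 ^ p * ((Z : ℝ) ^ p) ^ 2 := by
            rw [mul_pow, ← pow_mul, ← pow_mul, mul_comm p 2]; ring
        _ ≤ 4 * 16 ^ p * X ^ (2 * (p * a)) := mul_le_mul_of_nonneg_left h6 (by positivity)
        _ < (4 * 16 ^ p + 1) * X ^ (2 * (p * a)) := by nlinarith
        _ ≤ X ^ (12 * e - 2 * (p * a)) * X ^ (2 * (p * a)) :=
            mul_le_mul_of_nonneg_right h4 h9.le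
        _ = X ^ (12 * e) := h8
        _ ≤ (Y : ℝ) ^ 12 := h7
    exact_mod_cast h5
  -- primes
  have hPZ := hZ₀ Z (by omega)
  have hPY := hZ₀ Y (by omega)
  have hP5 : 5 ≤ (prm Z).card := by
    have h5 : (5 : ℝ) ≤ (Z : ℝ) ^ (1 - η) := by
      calc (5 : ℝ) ≤ √(Z : ℝ) := by
            apply Real.le_sqrt_of_sq_le
            have : ((40 : ℕ) : ℝ) ≤ Z := by exact_mod_cast (by omega : 40 ≤ Z)
            push_cast at this
            linarith
        _ = (Z : ℝ) ^ (1 / 2 : ℝ) := Real.sqrt_eq_rpow _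
        _ ≤ (Z : ℝ) ^ (1 - η) := by
            apply Real.rpow_le_rpow_of_exponent_le
            · have : (1 : ℕ) ≤ Z := by omega
              exact_mod_cast this
            · linarith
    have : (5 : ℝ) ≤ (prm Z).card := h5.trans hPZ
    exact_mod_cast this
  have hlt : (Z ^ p) ^ 2 < 4 * (Z ^ 2) ^ p := by
    have : (Z ^ p) ^ 2 = (Z ^ 2) ^ p := by rw [← pow_mul, ← pow_mul, mul_comm]
    rw [this]
    have : 0 < (Z ^ 2) ^ p := by
      have : 0 < Z := by omega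
      positivity
    omega
  have hmain := Rset_card p Z Y (Z ^ p) J (by omega) (by omega) hJ8
    (Nat.div_mul_le_self _ _) hP5 hlt hY12
  refine ⟨Z, Y, by omega, by omega, hZl, hZu, hlt, hdisc, ?_⟩
  -- the final lower bound
  have hmainR : ((prm Y).card : ℝ) * ((prm Z).card : ℝ) ^ 2 * J
      ≤ 1000 * ((Rset p Z Y (Z ^ p)).card : ℝ) := by exact_mod_cast hmain
  have q1 : X ^ (e * (1 - η)) ≤ ((prm Y).card : ℝ) := by
    refine le_trans ?_ hPY
    rw [Real.rpow_mul hX0.le]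
    exact Real.rpow_le_rpow (by positivity) hYl (by linarith)
  have q2 : X ^ (2 * a * (1 - η)) / 4 ≤ ((prm Z).card : ℝ) ^ 2 := by
    have h5 : (X ^ a / 2) ^ (1 - η) ≤ ((prm Z).card : ℝ) := by
      refine le_trans ?_ hPZ
      exact Real.rpow_le_rpow (by positivity) hZl (by linarith)
    have h6 : X ^ (a * (1 - η)) / 2 ≤ (X ^ a / 2) ^ (1 - η) := by
      rw [Real.div_rpow (by positivity) (by norm_num), ← Real.rpow_mul hX0.le]
      apply div_le_div_of_nonneg_left (by positivity) (by positivity)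
      calc (2 : ℝ) ^ (1 - η) ≤ (2 : ℝ) ^ (1 : ℝ) :=
            Real.rpow_le_rpow_of_exponent_le (by norm_num) (by linarith)
        _ = 2 := Real.rpow_one _
    have h7 : (X ^ (a * (1 - η)) / 2) ^ 2 = X ^ (2 * a * (1 - η)) / 4 := by
      rw [div_pow, ← Real.rpow_natCast, ← Real.rpow_mul hX0.le]
      norm_num
      congr 1; ring
    rw [← h7]
    exact pow_le_pow_left₀ (by positivity) (h6.trans h5) 2
  have hexp : X ^ (1 / 2 + 2 * a - η) ≤ X ^ (e * (1 - η)) * X ^ (2 * a * (1 - η)) *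
      X ^ (1 - p * a) := by
    rw [← Real.rpow_add hX0, ← Real.rpow_add hX0]
    apply Real.rpow_le_rpow_of_exponent_le hX1
    have h5 : e + 2 * a ≤ 1 := by rw [he]; linarith
    have : e * (1 - η) + 2 * a * (1 - η) + (1 - p * a)
        = 1 / 2 + 2 * a - η * (e + 2 * a) := by rw [he]; ring
    rw [this]
    nlinarith
  have hprod : X ^ (e * (1 - η)) * (X ^ (2 * a * (1 - η)) / 4) * (c₁ / 2 * X ^ (1 - p * a))
      ≤ ((prm Y).card : ℝ) * ((prm Z).card : ℝ) ^ 2 * J := by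
    apply mul_le_mul _ hJl (by positivity) (by positivity)
    apply mul_le_mul q1 q2 (by positivity) (by positivity)
  have : c₁ / 8 * X ^ (1 / 2 + 2 * a - η) ≤ 1000 * ((Rset p Z Y (Z ^ p)).card : ℝ) := by
    calc c₁ / 8 * X ^ (1 / 2 + 2 * a - η)
        ≤ c₁ / 8 * (X ^ (e * (1 - η)) * X ^ (2 * a * (1 - η)) * X ^ (1 - p * a)) :=
          mul_le_mul_of_nonneg_left hexp (by positivity)
      _ = X ^ (e * (1 - η)) * (X ^ (2 * a * (1 - η)) / 4) * (c₁ / 2 * X ^ (1 - p * a)) := by ring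
      _ ≤ _ := hprod
      _ ≤ _ := hmainR
  linarith

end Pool.Agent.helper9.Tors
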