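import Pool.Agent.helper9.Tors.Cls

set_option autoImplicit false

open NumberField Module

namespace Pool.Agent.helper9.Tors

variable {K : Type} [Field K] [NumberField K]

/-- The solutions `(m, x)` of `x² - 4 m^p = b² D` with `m` small give that many nontrivial
`p`-torsion classes. -/
theorem card_torsion (h2 : finrank ℚ K = 2) (hD : discr K < 0) (p : ℕ) (hp : p ≠ 0)
    (S : Finset (ℕ × ℕ)) (M : ℕ) (hM : 4 * ((M : ℤ) * M) < -discr K)
    (hS : ∀ s ∈ S, 1 < s.1 ∧ s.1 ≤ M ∧ Nat.Coprime s.2 s.1 ∧ s.2 ^ 2 < 4 * s.1 ^ p ∧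
      ∃ b : ℤ, (s.2 : ℤ) ^ 2 - 4 * (s.1 : ℤ) ^ p = b ^ 2 * discr K) :
    S.card + 1 ≤ Nat.card {c : ClassGroup (𝓞 K) // c ^ p = 1} := by
  classical
  by_cases hS0 : S = ∅
  · subst hS0
    have : Nonempty {c : ClassGroup (𝓞 K) // c ^ p = 1} := ⟨⟨1, one_pow p⟩⟩
    have h0 : 0 < Nat.card {c : ClassGroup (𝓞 K) // c ^ p = 1} := Nat.card_pos
    rw [Finset.card_empty, zero_add]
    exact h0
  obtain ⟨s0, hs0⟩ := Finset.nonempty_iff_ne_empty.mpr hS0
  have hM2 : (2 : ℤ) ≤ M := by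
    have h1 := hS s0 hs0
    have : 2 ≤ M := by omega
    exact_mod_cast this
  have hD4 : discr K < -4 := by nlinarith
  have hex : ∀ s : {s // s ∈ S}, ∃ (γ : 𝓞 K) (I J : Ideal (𝓞 K)), IsRep p s.1.1 s.1.2 γ I J := by
    rintro ⟨s, hs⟩
    obtain ⟨h1, h3, h4, h5, b, hb⟩ := hS s hs
    exact exists_rep h2 p s.1 s.2 hp (by omega) h4 b hb
  choose γ I J hrep using hex
  have hpos : ∀ s : {s // s ∈ S}, 0 < s.1.1 := fun s => by
    have := (hS s.1 s.2).1; omega
  have hIne : ∀ s, I s ∈ nonZeroDivisors (Ideal (𝓞 K)) := fun s => (hrep s).ne_zeroI (hpos s)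
  let F : Option {s // s ∈ S} → {c : ClassGroup (𝓞 K) // c ^ p = 1} := fun o =>
    match o with
    | none => ⟨1, one_pow p⟩
    | some s => ⟨ClassGroup.mk0 ⟨I s, hIne s⟩, by
        rw [← map_pow]
        have : (⟨I s, hIne s⟩ : nonZeroDivisors (Ideal (𝓞 K))) ^ p =
            ⟨I s ^ p, pow_mem (hIne s) p⟩ := rfl
        rw [this, ClassGroup.mk0_eq_one_iff, (hrep s).powI]
        exact ⟨⟨γ s, rfl⟩⟩⟩
  have hF : Function.Injective F := by
    have hnon : ∀ s, ClassGroup.mk0 ⟨I s, hIne s⟩ ≠ 1 := by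
      intro s h1
      rw [ClassGroup.mk0_eq_one_iff] at h1
      obtain ⟨g1, g3, g4, g5, b, hb⟩ := hS s.1 s.2
      obtain ⟨α, hα⟩ := h1
      refine (hrep s).not_principal h2 hD hp g1 g5 g4 ?_ ⟨α, ?_⟩
      · have h6 : (s.1.1 : ℤ) ≤ M := by exact_mod_cast g3
        nlinarith
      · rw [hα]
    rintro (_ | s) (_ | s') h
    · rfl
    · exact absurd (congrArg Subtype.val h).symm (hnon s')
    · exact absurd (congrArg Subtype.val h) (hnon s)
    · have h1 : ClassGroup.mk0 ⟨I s, hIne s⟩ = ClassGroup.mk0 ⟨I s', hIne s'⟩ :=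
        congrArg Subtype.val h
      obtain ⟨g1, g3, g4, g5, b, hb⟩ := hS s.1 s.2
      obtain ⟨g1', g3', g4', g5', b', hb'⟩ := hS s'.1 s'.2
      have h6 : (s.1.1 : ℤ) ≤ M := by exact_mod_cast g3
      have h7 : (s'.1.1 : ℤ) ≤ M := by exact_mod_cast g3'
      have h8 : (0 : ℤ) ≤ s.1.1 := by positivity
      have h9 : (0 : ℤ) ≤ s'.1.1 := by positivity
      have h10 : (s.1.1 : ℤ) * s'.1.1 ≤ (M : ℤ) * M := mul_le_mul h6 h7 h9 (by positivity)
      have := IsRep.inj h2 hD4 hp (hpos s) (hpos s') (hrep s) (hrep s') g5 g5' g4 g4'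
        (by linarith) (hIne s) (hIne s') h1
      congr 1
      apply Subtype.ext
      exact Prod.ext this.1 this.2
  have hfin : Finite {c : ClassGroup (𝓞 K) // c ^ p = 1} := inferInstance
  have := Nat.card_le_card_of_injective F hF
  rw [Finite.card_option] at this
  simpa using this

end Pool.Agent.helper9.Tors
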