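import Pool.Agent.helper9.Tors.Quad

set_option autoImplicit false

open NumberField Module

namespace Pool.Agent.helper9.Tors

theorem ideal_pow_inj {R : Type*} [CommRing R] [IsDedekindDomain R] {I J : Ideal R} {n : ℕ}
    (hn : n ≠ 0) (hI : I ≠ ⊥) (hJ : J ≠ ⊥) (h : I ^ n = J ^ n) : I = J := by
  have h1 := congrArg UniqueFactorizationMonoid.normalizedFactors h
  rw [UniqueFactorizationMonoid.normalizedFactors_pow,
    UniqueFactorizationMonoid.normalizedFactors_pow] at h1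
  have h2 : UniqueFactorizationMonoid.normalizedFactors I =
      UniqueFactorizationMonoid.normalizedFactors J := by
    classical
    ext a
    have := congrArg (Multiset.count a) h1
    rw [Multiset.count_nsmul, Multiset.count_nsmul] at this
    exact Nat.eq_of_mul_eq_mul_left (Nat.pos_of_ne_zero hn) this
  rw [← Ideal.prod_normalizedFactors_eq_self hI, ← Ideal.prod_normalizedFactors_eq_self hJ, h2]

variable {K : Type} [Field K] [NumberField K]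

/-- The data attached to a solution `x² - 4 m^p = b² D`. -/
structure IsRep (p m x : ℕ) (γ : 𝓞 K) (I J : Ideal (𝓞 K)) : Prop where
  eq : γ ^ 2 - (x : 𝓞 K) * γ + (m : 𝓞 K) ^ p = 0
  powI : I ^ p = Ideal.span {γ}
  powJ : J ^ p = Ideal.span {(x : 𝓞 K) - γ}
  mul : I * J = Ideal.span {(m : 𝓞 K)}

theorem exists_rep (h2 : finrank ℚ K = 2) (p m x : ℕ) (hp : p ≠ 0) (hm : 0 < m)
    (hx : Nat.Coprime x m) (b : ℤ) (hb : (x : ℤ) ^ 2 - 4 * (m : ℤ) ^ p = b ^ 2 * discr K) :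
    ∃ (γ : 𝓞 K) (I J : Ideal (𝓞 K)), IsRep p m x γ I J := by
  obtain ⟨δ, hδ⟩ := exists_sqrt h2
  have hbK : (x : K) ^ 2 - 4 * (m : K) ^ p = (b : K) ^ 2 * ((discr K : ℤ) : K) := by
    have := congrArg (fun z : ℤ => (z : K)) hb
    push_cast at this
    exact this
  set g : K := ((x : K) + b * δ) / 2 with hg
  have hgeq : g ^ 2 - (x : K) * g + (m : K) ^ p = 0 := by
    rw [hg]
    field_simp
    linear_combination (b : K) ^ 2 * hδ - hbK
  have hint : IsIntegral ℤ g := by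
    refine ⟨Polynomial.X ^ 2 - Polynomial.C (x : ℤ) * Polynomial.X + Polynomial.C ((m : ℤ) ^ p),
      ?_, ?_⟩
    · have : (Polynomial.X ^ 2 - Polynomial.C (x : ℤ) * Polynomial.X
          + Polynomial.C ((m : ℤ) ^ p)) = Polynomial.X ^ 2
          + (Polynomial.C (-(x : ℤ)) * Polynomial.X + Polynomial.C ((m : ℤ) ^ p)) := by
        rw [map_neg]; ring
      rw [this]
      apply Polynomial.monic_X_pow_add
      refine lt_of_le_of_lt (Polynomial.degree_linear_le) ?_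
      norm_num
    · simp only [Polynomial.eval₂_add, Polynomial.eval₂_sub, Polynomial.eval₂_mul,
        Polynomial.eval₂_pow, Polynomial.eval₂_X, Polynomial.eval₂_C]
      simpa using hgeq
  set γ : 𝓞 K := ⟨g, hint⟩ with hγ
  have hγK : (γ : K) = g := rfl
  have heq : γ ^ 2 - (x : 𝓞 K) * γ + (m : 𝓞 K) ^ p = 0 := by
    apply RingOfIntegers.ext
    simpa [hγK] using hgeq
  have hprod : γ * ((x : 𝓞 K) - γ) = (m : 𝓞 K) ^ p := by linear_combination -heq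
  have hco : IsCoprime γ ((x : 𝓞 K) - γ) := by
    have h1 : IsCoprime (x : ℤ) ((m : ℤ) ^ p) := by
      apply IsCoprime.pow_right
      exact Nat.isCoprime_iff_coprime.mpr hx
    obtain ⟨u, v, huv⟩ := h1
    refine ⟨(u : 𝓞 K) + v * ((x : 𝓞 K) - γ), (u : 𝓞 K), ?_⟩
    have h2 : (u : 𝓞 K) * (x : 𝓞 K) + (v : 𝓞 K) * (m : 𝓞 K) ^ p = 1 := by
      have := congrArg (fun z : ℤ => (z : 𝓞 K)) huv
      push_cast at this
      exact this
    linear_combination h2 + (v : 𝓞 K) * hprod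
  have hm0 : (m : 𝓞 K) ≠ 0 := by
    exact_mod_cast hm.ne'
  have hspan : Ideal.span {γ} * Ideal.span {(x : 𝓞 K) - γ} = Ideal.span {(m : 𝓞 K)} ^ p := by
    rw [Ideal.span_singleton_mul_span_singleton, hprod, Ideal.span_singleton_pow]
  have hcoI : IsCoprime (Ideal.span {γ}) (Ideal.span {(x : 𝓞 K) - γ}) :=
    (Ideal.isCoprime_span_singleton_iff _ _).mpr hco
  obtain ⟨I, hI⟩ := exists_eq_pow_of_mul_eq_pow_of_coprime hcoI hspan
  obtain ⟨J, hJ⟩ := exists_eq_pow_of_mul_eq_pow_of_coprime hcoI.symm (by rw [mul_comm]; exact hspan)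
  refine ⟨γ, I, J, heq, hI.symm, hJ.symm, ?_⟩
  have hne : Ideal.span {(m : 𝓞 K)} ≠ ⊥ := by
    rw [Ne, Ideal.span_singleton_eq_bot]; exact hm0
  have hpow : (I * J) ^ p = Ideal.span {(m : 𝓞 K)} ^ p := by
    rw [mul_pow, ← hI, ← hJ, hspan]
  refine ideal_pow_inj hp ?_ hne hpow
  intro h0
  rw [h0] at hpow
  have : (⊥ : Ideal (𝓞 K)) ^ p = ⊥ := by
    rw [← Ideal.zero_eq_bot, zero_pow hp]
  rw [this] at hpow
  exact (pow_ne_zero p hne) hpow.symm

theorem irrational_of (α : 𝓞 K) (T N : ℤ)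
    (h : α ^ 2 - (T : 𝓞 K) * α + (N : 𝓞 K) = 0) (hneg : T ^ 2 - 4 * N < 0) (u v : ℤ)
    (huv : (u : 𝓞 K) * α = (v : 𝓞 K)) : u = 0 := by
  by_contra hu0
  have h5 : ((v ^ 2 - T * (u * v) + N * u ^ 2 : ℤ) : 𝓞 K) = 0 := by
    push_cast
    rw [← huv]
    have : (u : 𝓞 K) ^ 2 * (α ^ 2 - (T : 𝓞 K) * α + (N : 𝓞 K)) = 0 := by rw [h, mul_zero]
    linear_combination this
  have h6 : v ^ 2 - T * (u * v) + N * u ^ 2 = 0 := by exact_mod_cast h5
  have h7 : (2 * v - T * u) ^ 2 = (T ^ 2 - 4 * N) * u ^ 2 := by nlinarith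
  have h8 : 0 < u ^ 2 := by positivity
  nlinarith [sq_nonneg (2 * v - T * u)]

theorem IsRep.norm_eq (h2 : finrank ℚ K = 2) {p m x : ℕ} {γ : 𝓞 K} {I J : Ideal (𝓞 K)}
    (h : IsRep p m x γ I J) (hlt : x ^ 2 < 4 * m ^ p) : Algebra.norm ℤ γ = (m : ℤ) ^ p := by
  refine Tors.norm_eq h2 γ x ((m : ℤ) ^ p) ?_ ?_
  · have := h.eq
    push_cast
    exact this
  · have : ((x : ℤ)) ^ 2 < 4 * (m : ℤ) ^ p := by exact_mod_cast hlt
    linarith

theorem IsRep.absNorm_eq (h2 : finrank ℚ K = 2) {p m x : ℕ} {γ : 𝓞 K} {I J : Ideal (𝓞 K)}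
    (hp : p ≠ 0) (h : IsRep p m x γ I J) (hlt : x ^ 2 < 4 * m ^ p) : Ideal.absNorm I = m := by
  have h1 := congrArg Ideal.absNorm h.powI
  rw [map_pow, Ideal.absNorm_span_singleton, h.norm_eq h2 hlt] at h1
  have h3 : ((m : ℤ) ^ p).natAbs = m ^ p := by
    rw [Int.natAbs_pow, Int.natAbs_natCast]
  rw [h3] at h1
  exact Nat.pow_left_injective hp h1

theorem IsRep.absNorm_eq' (h2 : finrank ℚ K = 2) {p m x : ℕ} {γ : 𝓞 K} {I J : Ideal (𝓞 K)}
    (hp : p ≠ 0) (hm : 0 < m) (h : IsRep p m x γ I J) (hlt : x ^ 2 < 4 * m ^ p) :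
    Ideal.absNorm J = m := by
  have h1 := congrArg Ideal.absNorm h.mul
  rw [map_mul, Ideal.absNorm_span_singleton, h.absNorm_eq h2 hp hlt] at h1
  have h3 : (Algebra.norm ℤ (m : 𝓞 K)) = (m : ℤ) ^ 2 := by
    have := Algebra.norm_algebraMap (S := 𝓞 K) (m : ℤ)
    rw [RingOfIntegers.rank, h2] at this
    simpa using this
  rw [h3, Int.natAbs_pow, Int.natAbs_natCast, sq] at h1
  exact Nat.eq_of_mul_eq_mul_left hm h1

theorem norm_int (h2 : finrank ℚ K = 2) (a : ℤ) : Algebra.norm ℤ (a : 𝓞 K) = a ^ 2 := by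
  have := Algebra.norm_algebraMap (S := 𝓞 K) a
  rw [RingOfIntegers.rank, h2] at this
  simpa using this

theorem dvd_of_dvd (h2 : finrank ℚ K = 2) (a x : ℤ) (h : (a : 𝓞 K) ∣ (x : 𝓞 K)) : a ∣ x := by
  obtain ⟨β, hβ⟩ := h
  have := congrArg (Algebra.norm ℤ) hβ
  rw [map_mul, norm_int h2, norm_int h2] at this
  exact (Int.pow_dvd_pow_iff two_ne_zero).mp ⟨_, this⟩

theorem IsRep.ne_zeroI {p m x : ℕ} {γ : 𝓞 K} {I J : Ideal (𝓞 K)}
    (hm : 0 < m) (h : IsRep p m x γ I J) : I ∈ nonZeroDivisors (Ideal (𝓞 K)) := by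
  apply mem_nonZeroDivisors_of_ne_zero
  rintro rfl
  have h1 := h.mul
  rw [zero_mul] at h1
  have hm0 : (m : 𝓞 K) ≠ 0 := by exact_mod_cast hm.ne'
  exact hm0 (Ideal.span_singleton_eq_bot.mp h1.symm)

theorem IsRep.ne_zeroJ {p m x : ℕ} {γ : 𝓞 K} {I J : Ideal (𝓞 K)}
    (hm : 0 < m) (h : IsRep p m x γ I J) : J ∈ nonZeroDivisors (Ideal (𝓞 K)) := by
  apply mem_nonZeroDivisors_of_ne_zero
  rintro rfl
  have h1 := h.mul
  rw [mul_zero] at h1
  have hm0 : (m : 𝓞 K) ≠ 0 := by exact_mod_cast hm.ne'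
  exact hm0 (Ideal.span_singleton_eq_bot.mp h1.symm)

/-- The ideal of a solution is not principal. -/
theorem IsRep.not_principal (h2 : finrank ℚ K = 2) (hD : discr K < 0) {p m x : ℕ} {γ : 𝓞 K}
    {I J : Ideal (𝓞 K)} (hp : p ≠ 0) (hm : 1 < m) (h : IsRep p m x γ I J)
    (hlt : x ^ 2 < 4 * m ^ p) (hx : Nat.Coprime x m) (hmD : 4 * (m : ℤ) < -discr K) :
    ¬ ∃ α : 𝓞 K, I = Ideal.span {α} := by
  rintro ⟨α, hα⟩
  have hN := h.absNorm_eq h2 hp hlt
  rw [hα, Ideal.absNorm_span_singleton] at hN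
  rcases norm_ge h2 hD α with ⟨a, ha⟩ | hge
  · -- rational generator
    subst ha
    rw [norm_int h2] at hN
    have ha2 : a ^ 2 = (m : ℤ) := by
      have : (0 : ℤ) ≤ a ^ 2 := sq_nonneg a
      rw [← hN]
      exact (Int.natAbs_of_nonneg this).symm
    have haK : (a : 𝓞 K) * (a : 𝓞 K) = (m : 𝓞 K) := by
      have := congrArg (fun z : ℤ => (z : 𝓞 K)) ha2
      push_cast at this
      rw [← this]; ring
    have ha0 : (a : 𝓞 K) ≠ 0 := by
      intro h0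
      rw [h0, zero_mul] at haK
      have hm0 : (m : 𝓞 K) ≠ 0 := by exact_mod_cast (by omega : m ≠ 0)
      exact hm0 haK.symm
    have hJ : J = Ideal.span {(a : 𝓞 K)} := by
      have h1 := h.mul
      rw [hα, ← haK, ← Ideal.span_singleton_mul_span_singleton] at h1
      have hne : Ideal.span {(a : 𝓞 K)} ≠ 0 := by
        rw [Ne, Ideal.zero_eq_bot, Ideal.span_singleton_eq_bot]; exact ha0
      exact mul_left_cancel₀ hne h1
    have hd1 : (a : 𝓞 K) ∣ γ := by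
      have h1 := h.powI
      rw [hα, Ideal.span_singleton_pow, Ideal.span_singleton_eq_span_singleton] at h1
      exact (dvd_pow_self _ hp).trans h1.dvd
    have hd2 : (a : 𝓞 K) ∣ (x : 𝓞 K) - γ := by
      have h1 := h.powJ
      rw [hJ, Ideal.span_singleton_pow, Ideal.span_singleton_eq_span_singleton] at h1
      exact (dvd_pow_self _ hp).trans h1.dvd
    have hd3 : (a : 𝓞 K) ∣ ((x : ℤ) : 𝓞 K) := by
      have := dvd_add hd1 hd2
      simpa using this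
    have hd4 : a ∣ (x : ℤ) := dvd_of_dvd h2 a x hd3
    have hd5 : a ∣ (m : ℤ) := by rw [← ha2]; exact dvd_pow_self a two_ne_zero
    have hd6 : IsUnit a := by
      have : IsCoprime (x : ℤ) (m : ℤ) := Nat.isCoprime_iff_coprime.mpr hx
      exact this.isUnit_of_dvd' hd4 hd5
    rcases Int.isUnit_iff.mp hd6 with rfl | rfl
    · norm_num at ha2; omega
    · norm_num at ha2; omega
  · have h1 : Algebra.norm ℤ α ≤ (m : ℤ) := by
      rw [← hN]
      exact Int.le_natAbs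
    linarith

/-- Distinct solutions give distinct ideal classes. -/
theorem IsRep.inj (h2 : finrank ℚ K = 2) (hD : discr K < -4) {p m x m' x' : ℕ} {γ γ' : 𝓞 K}
    {I J I' J' : Ideal (𝓞 K)} (hp : p ≠ 0) (hm : 0 < m) (hm' : 0 < m')
    (h : IsRep p m x γ I J) (h' : IsRep p m' x' γ' I' J')
    (hlt : x ^ 2 < 4 * m ^ p) (hlt' : x' ^ 2 < 4 * m' ^ p)
    (hx : Nat.Coprime x m) (hx' : Nat.Coprime x' m')
    (hmD : 4 * ((m : ℤ) * m') < -discr K)
    (hI : I ∈ nonZeroDivisors (Ideal (𝓞 K))) (hI' : I' ∈ nonZeroDivisors (Ideal (𝓞 K)))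
    (hcl : ClassGroup.mk0 ⟨I, hI⟩ = ClassGroup.mk0 ⟨I', hI'⟩) : m = m' ∧ x = x' := by
  have hD0 : discr K < 0 := by linarith
  have hJ' := h'.ne_zeroJ hm'
  have hm0' : (m' : 𝓞 K) ≠ 0 := by exact_mod_cast hm'.ne'
  have h1 : ClassGroup.mk0 ⟨I', hI'⟩ = (ClassGroup.mk0 ⟨J', hJ'⟩)⁻¹ :=
    ClassGroup.mk0_eq_mk0_inv_iff.mpr ⟨(m' : 𝓞 K), hm0', h'.mul⟩
  rw [← hcl] at h1
  obtain ⟨α, hα0, hα⟩ := ClassGroup.mk0_eq_mk0_inv_iff.mp h1
  simp only at hα
  have hN : (Algebra.norm ℤ α).natAbs = m * m' := by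
    rw [← Ideal.absNorm_span_singleton, ← hα, map_mul, h.absNorm_eq h2 hp hlt,
      h'.absNorm_eq' h2 hp hm' hlt']
  have hrat : ∃ a : ℤ, α = (a : 𝓞 K) := by
    rcases norm_ge h2 hD0 α with hr | hge
    · exact hr
    · exfalso
      have h3 : Algebra.norm ℤ α ≤ (m : ℤ) * m' := by
        have : ((Algebra.norm ℤ α).natAbs : ℤ) = (m : ℤ) * m' := by rw [hN]; push_cast; ring
        rw [← this]
        exact Int.le_natAbs
      linarith
  obtain ⟨a, rfl⟩ := hrat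
  rw [norm_int h2] at hN
  have ha2 : a ^ 2 = (m : ℤ) * m' := by
    have h4 : (0 : ℤ) ≤ a ^ 2 := sq_nonneg a
    have h5 : ((a ^ 2).natAbs : ℤ) = a ^ 2 := Int.natAbs_of_nonneg h4
    rw [← h5, hN]; push_cast; ring
  -- p-th powers
  have h6 : Ideal.span {γ * ((x' : 𝓞 K) - γ')} = Ideal.span {(a : 𝓞 K) ^ p} := by
    rw [← Ideal.span_singleton_mul_span_singleton, ← h.powI, ← h'.powJ, ← mul_pow, hα,
      Ideal.span_singleton_pow]
  rw [Ideal.span_singleton_eq_span_singleton] at h6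
  obtain ⟨u, hu⟩ := h6.symm
  -- the unit is rational
  have hunit : ∃ c : ℤ, ((u : (𝓞 K)ˣ) : 𝓞 K) = (c : 𝓞 K) ∧ c ^ 2 = 1 := by
    have h7 : (Algebra.norm ℤ ((u : (𝓞 K)ˣ) : 𝓞 K)).natAbs = 1 := by
      have h8 : IsUnit (Algebra.norm ℤ ((u : (𝓞 K)ˣ) : 𝓞 K)) := (u.isUnit).map _
      exact Int.isUnit_iff_natAbs_eq.mp h8
    rcases norm_ge h2 hD0 ((u : (𝓞 K)ˣ) : 𝓞 K) with ⟨c, hc⟩ | hge
    · refine ⟨c, hc, ?_⟩
      rw [hc, norm_int h2] at h7
      have h9 : (0 : ℤ) ≤ c ^ 2 := sq_nonneg c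
      have h10 : ((c ^ 2).natAbs : ℤ) = c ^ 2 := Int.natAbs_of_nonneg h9
      rw [← h10, h7]; norm_num
    · exfalso
      have h11 : Algebra.norm ℤ ((u : (𝓞 K)ˣ) : 𝓞 K) ≤ 1 := by
        have : ((Algebra.norm ℤ ((u : (𝓞 K)ˣ) : 𝓞 K)).natAbs : ℤ) = 1 := by
          rw [h7]; norm_num
        rw [← this]
        exact Int.le_natAbs
      linarith
  obtain ⟨c, hc, hc1⟩ := hunit
  rw [hc] at hu
  -- `γ m'^p = c a^p γ'`
  have h12 : (((m' : ℤ) ^ p : ℤ) : 𝓞 K) * γ = ((c * a ^ p : ℤ) : 𝓞 K) * γ' := by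
    have h13 := h'.eq
    push_cast
    linear_combination γ * h13 - γ' * hu
  set e : ℤ := (m' : ℤ) ^ p with he
  set f : ℤ := c * a ^ p with hf
  have he0 : e ≠ 0 := by rw [he]; positivity
  have hneg : ((x : ℤ)) ^ 2 - 4 * (m : ℤ) ^ p < 0 := by
    have : ((x : ℤ)) ^ 2 < 4 * (m : ℤ) ^ p := by exact_mod_cast hlt
    linarith
  have hgam : γ ^ 2 - ((x : ℤ) : 𝓞 K) * γ + (((m : ℤ) ^ p : ℤ) : 𝓞 K) = 0 := by
    push_cast
    exact h.eq
  have hgam' : γ' ^ 2 - (x' : 𝓞 K) * γ' + (e : 𝓞 K) = 0 := by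
    rw [he]; push_cast
    exact h'.eq
  have h14 := irrational_of γ x ((m : ℤ) ^ p) hgam hneg (e ^ 2 * x - e * f * x')
    (e ^ 2 * (m : ℤ) ^ p - f ^ 2 * e) (by
      push_cast
      push_cast at h12 hgam
      linear_combination (-(e : 𝓞 K) ^ 2) * hgam + (f : 𝓞 K) ^ 2 * hgam' +
        ((e : 𝓞 K) * γ + f * γ' - f * x') * h12)
  have h15 : e * x = f * x' := by
    have : e * (e * x - f * x') = 0 := by linear_combination h14
    rcases mul_eq_zero.mp this with h | h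
    · exact absurd h he0
    · linarith
  -- squares
  have h16 : (x : ℤ) ^ 2 * (m' : ℤ) ^ p = (m : ℤ) ^ p * (x' : ℤ) ^ 2 := by
    have h17 : (e * x) ^ 2 = (f * x') ^ 2 := by rw [h15]
    have h18 : f ^ 2 = (m : ℤ) ^ p * (m' : ℤ) ^ p := by
      rw [hf, mul_pow, hc1, one_mul, ← pow_mul, mul_comm p 2, pow_mul, ha2, mul_pow]
    have h19 : (m' : ℤ) ^ p * ((x : ℤ) ^ 2 * (m' : ℤ) ^ p - (m : ℤ) ^ p * (x' : ℤ) ^ 2) = 0 := by
      rw [he] at h17
      have : ((m' : ℤ) ^ p * x) ^ 2 = f ^ 2 * (x' : ℤ) ^ 2 := by rw [h17]; ring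
      rw [h18] at this
      linear_combination this
    rcases mul_eq_zero.mp h19 with h | h
    · exact absurd h he0
    · linarith
  have h20 : x ^ 2 * m' ^ p = m ^ p * x' ^ 2 := by exact_mod_cast h16
  have hd1 : m ∣ m' := by
    have h21 : m ^ p ∣ x ^ 2 * m' ^ p := ⟨_, h20⟩
    have h22 : Nat.Coprime (m ^ p) (x ^ 2) := Nat.Coprime.pow _ _ hx.symm
    exact (Nat.pow_dvd_pow_iff hp).mp (h22.dvd_of_dvd_mul_left h21)
  have hd2 : m' ∣ m := by
    have h21 : m' ^ p ∣ m ^ p * x' ^ 2 := ⟨x ^ 2, by rw [← h20]; ring⟩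
    have h22 : Nat.Coprime (m' ^ p) (x' ^ 2) := Nat.Coprime.pow _ _ hx'.symm
    exact (Nat.pow_dvd_pow_iff hp).mp (h22.dvd_of_dvd_mul_right h21)
  have hmm : m = m' := Nat.dvd_antisymm hd1 hd2
  refine ⟨hmm, ?_⟩
  subst hmm
  have h23 : x ^ 2 = x' ^ 2 := by
    have : m ^ p * x ^ 2 = m ^ p * x' ^ 2 := by rw [← h20]; ring
    exact Nat.eq_of_mul_eq_mul_left (by positivity) this
  exact Nat.pow_left_injective two_ne_zero h23

end Pool.Agent.helper9.Tors
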