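import Mathlib

set_option autoImplicit false

namespace Pool.Agent.helper9.Tors

/-- A square root of `4 m^p` modulo `y²`. -/
theorem exists_root (y m p : ℕ) (hy : y.Prime) (hodd : y ≠ 2) (hm : ¬ y ∣ m)
    (hs : IsSquare (m : ZMod y)) :
    ∃ r : ℕ, 0 < r ∧ r < y ^ 2 ∧ (y : ℤ) ^ 2 ∣ 4 * (m : ℤ) ^ p - (r : ℤ) ^ 2 := by
  have hyF : Fact y.Prime := ⟨hy⟩
  have hyI : Prime (y : ℤ) := Nat.prime_iff_prime_int.mp hy
  obtain ⟨s0, hs0⟩ := hs
  set s : ℤ := (s0.val : ℤ) with hsdef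
  have hs1' : ((s ^ 2 - m : ℤ) : ZMod y) = 0 := by
    have h : ((s : ℤ) : ZMod y) = s0 := by
      rw [hsdef, Int.cast_natCast, ZMod.natCast_zmod_val]
    rw [Int.cast_sub, Int.cast_pow, h, Int.cast_natCast, hs0]; ring
  have hs1 : (y : ℤ) ∣ s ^ 2 - m := (ZMod.intCast_zmod_eq_zero_iff_dvd _ _).mp hs1'
  obtain ⟨c, hc⟩ := hs1
  have hys : ¬ (y : ℤ) ∣ 2 * s := by
    intro h
    rcases hyI.dvd_or_dvd h with h2 | h2
    · have : y ∣ 2 := by exact_mod_cast h2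
      exact hodd ((Nat.prime_dvd_prime_iff_eq hy Nat.prime_two).mp this)
    · apply hm
      have : (y : ℤ) ∣ m := by
        have h3 : (y : ℤ) ∣ s ^ 2 := dvd_pow h2 two_ne_zero
        have h4 : (m : ℤ) = s ^ 2 - y * c := by linarith
        rw [h4]
        exact dvd_sub h3 (dvd_mul_right _ _)
      exact_mod_cast this
  have hcop : IsCoprime (y : ℤ) (2 * s) := (hyI.irreducible.coprime_iff_not_dvd).mpr hys
  obtain ⟨u, v, huv⟩ := hcop
  -- `u y + v (2 s) = 1`, take `k = - v c`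
  set t : ℤ := s + (-(v * c)) * y with ht
  have ht2 : (y : ℤ) ^ 2 ∣ t ^ 2 - m := by
    refine ⟨u * c + (v * c) ^ 2, ?_⟩
    rw [ht]
    have h1 : s ^ 2 - m = y * c := hc
    linear_combination h1 - (y : ℤ) * c * huv
  have htp : (y : ℤ) ^ 2 ∣ (t ^ 2) ^ p - (m : ℤ) ^ p := ht2.trans (sub_dvd_pow_sub_pow _ _ p)
  have hy2 : (0 : ℤ) < (y : ℤ) ^ 2 := by
    have : (0 : ℤ) < y := by exact_mod_cast hy.pos
    positivity
  set r : ℤ := (2 * t ^ p) % (y : ℤ) ^ 2 with hr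
  have hr0 : 0 ≤ r := Int.emod_nonneg _ hy2.ne'
  have hr1 : r < (y : ℤ) ^ 2 := Int.emod_lt_of_pos _ hy2
  have hr2 : (y : ℤ) ^ 2 ∣ 2 * t ^ p - r := Int.dvd_self_sub_emod
  have hr3 : (y : ℤ) ^ 2 ∣ 4 * (m : ℤ) ^ p - r ^ 2 := by
    have h1 : 4 * (m : ℤ) ^ p - r ^ 2
        = (2 * t ^ p - r) * (2 * t ^ p + r) - 4 * ((t ^ 2) ^ p - (m : ℤ) ^ p) := by
      rw [← pow_mul, mul_comm 2 p, pow_mul]; ring
    rw [h1]
    exact dvd_sub (Dvd.dvd.mul_right hr2 _) (Dvd.dvd.mul_left htp _)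
  have hrne : r ≠ 0 := by
    intro h0
    rw [h0] at hr3
    have h1 : (y : ℤ) ∣ 4 * (m : ℤ) ^ p := by
      have : (y : ℤ) ∣ (y : ℤ) ^ 2 := dvd_pow_self _ two_ne_zero
      refine this.trans ?_
      simpa using hr3
    rcases hyI.dvd_or_dvd h1 with h2 | h2
    · have h3 : (y : ℤ) ∣ 2 ^ 2 := by norm_num; exact h2
      have h4 : y ∣ 2 := by exact_mod_cast hyI.dvd_of_dvd_pow h3
      exact hodd ((Nat.prime_dvd_prime_iff_eq hy Nat.prime_two).mp h4)
    · apply hm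
      exact_mod_cast hyI.dvd_of_dvd_pow h2
  refine ⟨r.toNat, ?_, ?_, ?_⟩
  · omega
  · have : ((r.toNat : ℕ) : ℤ) < ((y ^ 2 : ℕ) : ℤ) := by
      rw [Int.toNat_of_nonneg hr0]; push_cast; exact hr1
    exact_mod_cast this
  · rw [Int.toNat_of_nonneg hr0]; exact hr3

/-- Many `x` in the residue class of a root that are coprime to `m = l₁ l₂`. -/
theorem many_x (y p l₁ l₂ J : ℕ) (hy : y.Prime) (hodd : y ≠ 2)
    (h1 : l₁.Prime) (h2 : l₂.Prime) (hl1 : 8 < l₁) (hl2 : 8 < l₂)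
    (hn1 : y ≠ l₁) (hn2 : y ≠ l₂) (hJ : 8 ≤ J)
    (hs : IsSquare ((l₁ * l₂ : ℕ) : ZMod y)) :
    J ≤ 2 * ((Finset.Icc 1 (J * y ^ 2)).filter (fun x => Nat.Coprime x (l₁ * l₂) ∧
      (y : ℤ) ^ 2 ∣ 4 * ((l₁ * l₂ : ℕ) : ℤ) ^ p - (x : ℤ) ^ 2)).card := by
  classical
  have hm : ¬ y ∣ l₁ * l₂ := by
    intro h
    rcases (hy.dvd_mul).mp h with h | h
    · exact hn1 ((Nat.prime_dvd_prime_iff_eq hy h1).mp h)
    · exact hn2 ((Nat.prime_dvd_prime_iff_eq hy h2).mp h)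
  obtain ⟨r, hr0, hr1, hr2⟩ := exists_root y (l₁ * l₂) p hy hodd hm hs
  have hy2 : 0 < y ^ 2 := pow_pos hy.pos 2
  -- the bad indices
  have key : ∀ l : ℕ, l.Prime → 8 < l → y ≠ l →
      ((Finset.range J).filter (fun j => l ∣ r + j * y ^ 2)).card ≤ J / l + 1 := by
    intro l hl hl8 hyl
    have hinj : Set.InjOn (fun j => j / l)
        (((Finset.range J).filter (fun j => l ∣ r + j * y ^ 2) : Finset ℕ) : Set ℕ) := by
      intro j hj j' hj' hjj
      simp only [Finset.coe_filter, Finset.mem_range, Set.mem_ofPred_eq] at hj hj'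
      simp only at hjj
      have hmod : (r + j * y ^ 2) ≡ (r + j' * y ^ 2) [MOD l] := by
        rw [Nat.ModEq, Nat.mod_eq_zero_of_dvd hj.2, Nat.mod_eq_zero_of_dvd hj'.2]
      have hmod2 : j * y ^ 2 ≡ j' * y ^ 2 [MOD l] := Nat.ModEq.add_left_cancel' r hmod
      have hcop : Nat.Coprime l (y ^ 2) := by
        apply Nat.Coprime.pow_right
        exact (Nat.coprime_primes hl hy).mpr (Ne.symm hyl)
      have hmod3 : j ≡ j' [MOD l] := Nat.ModEq.cancel_right_of_coprime hcop hmod2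
      have e1 := Nat.div_add_mod j l
      have e2 := Nat.div_add_mod j' l
      rw [Nat.ModEq] at hmod3
      rw [← e1, ← e2, hjj, hmod3]
    have himg : ((Finset.range J).filter (fun j => l ∣ r + j * y ^ 2)).image (fun j => j / l)
        ⊆ Finset.range (J / l + 1) := by
      intro a ha
      simp only [Finset.mem_image, Finset.mem_filter, Finset.mem_range] at ha ⊢
      obtain ⟨j, ⟨hj, _⟩, rfl⟩ := ha
      have : j / l ≤ J / l := Nat.div_le_div_right hj.le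
      omega
    rw [← Finset.card_image_of_injOn hinj]
    calc _ ≤ (Finset.range (J / l + 1)).card := Finset.card_le_card himg
      _ = _ := Finset.card_range _
  set G := (Finset.range J).filter (fun j => ¬ l₁ ∣ r + j * y ^ 2 ∧ ¬ l₂ ∣ r + j * y ^ 2) with hG
  have hcov : Finset.range J ⊆ G ∪ ((Finset.range J).filter (fun j => l₁ ∣ r + j * y ^ 2)
      ∪ (Finset.range J).filter (fun j => l₂ ∣ r + j * y ^ 2)) := by
    intro j hj
    simp only [hG, Finset.mem_union, Finset.mem_filter]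
    tauto
  have hc1 := Finset.card_le_card hcov
  rw [Finset.card_range] at hc1
  have hc2 := (Finset.card_union_le G ((Finset.range J).filter (fun j => l₁ ∣ r + j * y ^ 2)
      ∪ (Finset.range J).filter (fun j => l₂ ∣ r + j * y ^ 2)))
  have hc3 := Finset.card_union_le ((Finset.range J).filter (fun j => l₁ ∣ r + j * y ^ 2))
    ((Finset.range J).filter (fun j => l₂ ∣ r + j * y ^ 2))
  have k1 := key l₁ h1 hl1 hn1
  have k2 := key l₂ h2 hl2 hn2
  have d1 : J / l₁ ≤ J / 8 := Nat.div_le_div_left (by omega) (by norm_num)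
  have d2 : J / l₂ ≤ J / 8 := Nat.div_le_div_left (by omega) (by norm_num)
  have hGc : J ≤ 2 * G.card := by omega
  -- map into the target
  have hinj : Set.InjOn (fun j => r + j * y ^ 2) (G : Set ℕ) := by
    intro j _ j' _ h
    simp only at h
    have : j * y ^ 2 = j' * y ^ 2 := by omega
    exact Nat.eq_of_mul_eq_mul_right hy2 this
  have himg : G.image (fun j => r + j * y ^ 2) ⊆ (Finset.Icc 1 (J * y ^ 2)).filter
      (fun x => Nat.Coprime x (l₁ * l₂) ∧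
      (y : ℤ) ^ 2 ∣ 4 * ((l₁ * l₂ : ℕ) : ℤ) ^ p - (x : ℤ) ^ 2) := by
    intro x hx
    simp only [Finset.mem_image, hG, Finset.mem_filter, Finset.mem_range] at hx
    obtain ⟨j, ⟨hj, hj1, hj2⟩, rfl⟩ := hx
    simp only [Finset.mem_filter, Finset.mem_Icc]
    refine ⟨⟨by omega, ?_⟩, ?_, ?_⟩
    · have : (j + 1) * y ^ 2 ≤ J * y ^ 2 := Nat.mul_le_mul_right _ (by omega)
      rw [add_mul, one_mul] at this
      omega
    · apply Nat.Coprime.mul_right
      · exact ((Nat.Prime.coprime_iff_not_dvd h1).mpr hj1).symm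
      · exact ((Nat.Prime.coprime_iff_not_dvd h2).mpr hj2).symm
    · push_cast
      push_cast at hr2
      have : (4 * ((l₁ : ℤ) * l₂) ^ p - ((r : ℤ) + j * (y : ℤ) ^ 2) ^ 2)
          = (4 * ((l₁ : ℤ) * l₂) ^ p - (r : ℤ) ^ 2)
            - (y : ℤ) ^ 2 * (2 * r * j + j ^ 2 * (y : ℤ) ^ 2) := by ring
      rw [this]
      exact dvd_sub hr2 (dvd_mul_right _ _)
  have hcc := Finset.card_le_card himg
  rw [Finset.card_image_of_injOn hinj] at hcc
  omega

end Pool.Agent.helper9.Tors
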