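import Pool.Agent.helper9.Tors.Primes
import Pool.Agent.helper9.Tors.Roots

set_option autoImplicit false

namespace Pool.Agent.helper9.Tors

open Finset

/-- Pairs of primes `l₁ < l₂` in `(Z, 4Z]`. -/
def prs (Z : ℕ) : Finset (ℕ × ℕ) := (prm Z ×ˢ prm Z).filter (fun q => q.1 < q.2)

theorem mem_prs {Z : ℕ} {q : ℕ × ℕ} : q ∈ prs Z ↔ (q.1 ∈ prm Z ∧ q.2 ∈ prm Z) ∧ q.1 < q.2 := by
  simp [prs]

/-- `2 #{l₁ < l₂} = |B| (|B| - 1)`. -/
theorem two_card_lt (B : Finset ℕ) :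
    2 * ((B ×ˢ B).filter (fun q => q.1 < q.2)).card = B.card * (B.card - 1) := by
  classical
  have h1 : ((B ×ˢ B).filter (fun q => q.1 < q.2)).card
      = ((B ×ˢ B).filter (fun q => q.2 < q.1)).card := by
    apply Finset.card_bij (fun q _ => Prod.swap q)
    · intro q hq
      simp only [mem_filter, mem_product, Prod.fst_swap, Prod.snd_swap] at hq ⊢
      tauto
    · intro q _ q' _ h
      exact Prod.swap_injective h
    · intro q hq
      refine ⟨Prod.swap q, ?_, Prod.swap_swap q⟩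
      simp only [mem_filter, mem_product, Prod.fst_swap, Prod.snd_swap] at hq ⊢
      tauto
  have h2 : B.offDiag = (B ×ˢ B).filter (fun q => q.1 < q.2)
      ∪ (B ×ˢ B).filter (fun q => q.2 < q.1) := by
    ext q
    simp only [mem_offDiag, mem_union, mem_filter, mem_product]
    constructor
    · rintro ⟨a, b, c⟩
      rcases lt_or_gt_of_ne c with h | h
      · left; exact ⟨⟨a, b⟩, h⟩
      · right; exact ⟨⟨a, b⟩, h⟩
    · rintro (⟨⟨a, b⟩, h⟩ | ⟨⟨a, b⟩, h⟩)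
      · exact ⟨a, b, h.ne⟩
      · exact ⟨a, b, h.ne'⟩
  have h3 : Disjoint ((B ×ˢ B).filter (fun q => q.1 < q.2))
      ((B ×ˢ B).filter (fun q => q.2 < q.1)) := by
    rw [Finset.disjoint_left]
    intro q hq hq'
    rw [mem_filter] at hq hq'
    omega
  have h4 := Finset.offDiag_card B
  rw [h2, Finset.card_union_of_disjoint h3, ← h1] at h4
  rw [Nat.mul_sub, mul_one]
  omega

open Classical in
/-- Many pairs whose product is a square modulo the prime `y`. -/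
theorem many_pairs (Z y : ℕ) (hy : y.Prime) (hodd : y ≠ 2) (hP : 5 ≤ (prm Z).card) :
    (prm Z).card ^ 2 ≤ 100 * ((prs Z).filter (fun q : ℕ × ℕ => q.1 ≠ y ∧ q.2 ≠ y ∧
      IsSquare ((q.1 * q.2 : ℕ) : ZMod y))).card := by
  have hyF : Fact y.Prime := ⟨hy⟩
  set P := (prm Z).card with hPdef
  set A := (prm Z).erase y with hA
  have hAc : P ≤ A.card + 1 := by
    rw [hA]
    have := Finset.pred_card_le_card_erase (s := prm Z) (a := y)
    omega
  set Bp := A.filter (fun l => IsSquare ((l : ℕ) : ZMod y)) with hBp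
  set Bm := A.filter (fun l => ¬ IsSquare ((l : ℕ) : ZMod y)) with hBm
  have hsum : Bp.card + Bm.card = A.card := Finset.card_filter_add_card_filter_not _
  have hsq : ∀ l₁ ∈ A, ∀ l₂ ∈ A, (IsSquare ((l₁ : ℕ) : ZMod y) ↔ IsSquare ((l₂ : ℕ) : ZMod y)) →
      IsSquare ((l₁ * l₂ : ℕ) : ZMod y) := by
    intro l₁ h1 l₂ h2 hiff
    rw [hA, Finset.mem_erase, mem_prm] at h1 h2
    have hne : ∀ l : ℕ, l.Prime → l ≠ y → ((l : ℕ) : ZMod y) ≠ 0 := by
      intro l hl hly h0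
      rw [ZMod.natCast_eq_zero_iff] at h0
      exact hly ((Nat.prime_dvd_prime_iff_eq hy hl).mp h0).symm
    have hn1 := hne l₁ h1.2.2 h1.1
    have hn2 := hne l₂ h2.2.2 h2.1
    push_cast
    have hchar : ringChar (ZMod y) ≠ 2 := by
      rw [ZMod.ringChar_zmod_n]; exact hodd
    have hn12 : ((l₁ : ℕ) : ZMod y) * ((l₂ : ℕ) : ZMod y) ≠ 0 := mul_ne_zero hn1 hn2
    have q1 := quadraticChar_dichotomy hn1
    have q2 := quadraticChar_dichotomy hn2
    rw [← quadraticChar_one_iff_isSquare hn12, map_mul]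
    rw [← quadraticChar_one_iff_isSquare hn1, ← quadraticChar_one_iff_isSquare hn2] at hiff
    rcases q1 with q1 | q1 <;> rcases q2 with q2 | q2
    · rw [q1, q2]; norm_num
    · rw [q1, q2] at hiff; norm_num at hiff
    · rw [q1, q2] at hiff; norm_num at hiff
    · rw [q1, q2]; norm_num
  -- a large class
  obtain ⟨B, hBA, hBiff, hBc⟩ : ∃ B : Finset ℕ, B ⊆ A ∧
      (∀ l₁ ∈ B, ∀ l₂ ∈ B, (IsSquare ((l₁ : ℕ) : ZMod y) ↔ IsSquare ((l₂ : ℕ) : ZMod y))) ∧
      A.card ≤ 2 * B.card := by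
    rcases le_total Bp.card Bm.card with h | h
    · refine ⟨Bm, Finset.filter_subset _ _, ?_, by omega⟩
      intro l₁ h1 l₂ h2
      rw [hBm, mem_filter] at h1 h2
      exact ⟨fun h => absurd h h1.2, fun h => absurd h h2.2⟩
    · refine ⟨Bp, Finset.filter_subset _ _, ?_, by omega⟩
      intro l₁ h1 l₂ h2
      rw [hBp, mem_filter] at h1 h2
      exact ⟨fun _ => h2.2, fun _ => h1.2⟩
  have hB2 : 2 ≤ B.card := by omega
  have hBP : P ≤ 3 * B.card := by omega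
  have hsub : (B ×ˢ B).filter (fun q => q.1 < q.2) ⊆ (prs Z).filter (fun q : ℕ × ℕ => q.1 ≠ y ∧ q.2 ≠ y ∧
      IsSquare ((q.1 * q.2 : ℕ) : ZMod y)) := by
    intro q hq
    rw [mem_filter, mem_product] at hq
    obtain ⟨⟨h1, h2⟩, h3⟩ := hq
    have a1 := hBA h1
    have a2 := hBA h2
    have a1' := a1
    have a2' := a2
    rw [hA, Finset.mem_erase] at a1' a2'
    rw [mem_filter, mem_prs]
    exact ⟨⟨⟨a1'.2, a2'.2⟩, h3⟩, a1'.1, a2'.1, hsq _ a1 _ a2 (hBiff _ h1 _ h2)⟩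
  have hc := Finset.card_le_card hsub
  have h2c := two_card_lt B
  obtain ⟨k, hk⟩ : ∃ k, B.card = k + 2 := ⟨B.card - 2, by omega⟩
  rw [hk] at h2c hBP
  have hk1 : k + 2 - 1 = k + 1 := by omega
  rw [hk1] at h2c
  have h5 : P ^ 2 ≤ (3 * (k + 2)) ^ 2 := Nat.pow_le_pow_left hBP 2
  nlinarith

/-- The set of realised triples. -/
def Rset (p Z Y T : ℕ) : Finset ((ℕ × ℕ) × ℕ) := by
  classical
  exact (prs Z ×ˢ Icc 1 T).filter (fun u => Nat.Coprime u.2 (u.1.1 * u.1.2) ∧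
    ∃ y ∈ prm Y, (y : ℤ) ^ 2 ∣ 4 * ((u.1.1 * u.1.2 : ℕ) : ℤ) ^ p - (u.2 : ℤ) ^ 2)

theorem mem_Rset {p Z Y T : ℕ} {u : (ℕ × ℕ) × ℕ} : u ∈ Rset p Z Y T ↔
    (u.1 ∈ prs Z ∧ (1 ≤ u.2 ∧ u.2 ≤ T)) ∧ Nat.Coprime u.2 (u.1.1 * u.1.2) ∧
    ∃ y ∈ prm Y, (y : ℤ) ^ 2 ∣ 4 * ((u.1.1 * u.1.2 : ℕ) : ℤ) ^ p - (u.2 : ℤ) ^ 2 := by
  classical
  simp only [Rset, mem_filter, mem_product, mem_Icc]

/-- Few prime squares divide a number. -/
theorem few_y (Y : ℕ) (hY : 1 ≤ Y) (n : ℕ) (hn : 0 < n) (hlt : n < Y ^ 12) (s : Finset ℕ)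
    (hs : ∀ y ∈ s, y ∈ prm Y ∧ y ^ 2 ∣ n) : s.card ≤ 5 := by
  classical
  by_contra hcon
  push Not at hcon
  have hdvd : ∏ y ∈ s, y ^ 2 ∣ n := by
    apply Finset.prod_dvd_of_isRelPrime
    · intro a ha b hb hab
      have h1 := (mem_prm.mp (hs a ha).1).2
      have h2 := (mem_prm.mp (hs b hb).1).2
      exact Nat.coprime_iff_isRelPrime.mp
        (Nat.Coprime.pow 2 2 ((Nat.coprime_primes h1 h2).mpr hab))
    · exact fun y hy => (hs y hy).2
  have hle : ∏ y ∈ s, y ^ 2 ≤ n := Nat.le_of_dvd hn hdvd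
  have hge : (Y ^ 2) ^ s.card ≤ ∏ y ∈ s, y ^ 2 := by
    rw [← Finset.prod_const]
    apply Finset.prod_le_prod'
    intro y hy
    have := (mem_prm.mp (hs y hy).1).1.1
    exact Nat.pow_le_pow_left this.le 2
  have h3 : Y ^ 12 ≤ (Y ^ 2) ^ s.card := by
    rw [← pow_mul]
    exact Nat.pow_le_pow_right hY (by omega)
  omega

/-- Lower bound for the number of realised triples. -/
theorem Rset_card (p Z Y T J : ℕ) (hZ : 8 ≤ Z) (hY : 2 ≤ Y) (hJ : 8 ≤ J)
    (hT : J * (4 * Y) ^ 2 ≤ T) (hP : 5 ≤ (prm Z).card)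
    (hT2 : T ^ 2 < 4 * (Z ^ 2) ^ p)
    (hY12 : 4 * (16 * Z ^ 2) ^ p < Y ^ 12) :
    (prm Y).card * (prm Z).card ^ 2 * J ≤ 1000 * (Rset p Z Y T).card := by
  classical
  let U := prs Z ×ˢ Icc 1 T
  let r : ℕ → ((ℕ × ℕ) × ℕ) → Prop := fun y u => Nat.Coprime u.2 (u.1.1 * u.1.2) ∧
    (y : ℤ) ^ 2 ∣ 4 * ((u.1.1 * u.1.2 : ℕ) : ℤ) ^ p - (u.2 : ℤ) ^ 2
  have hdc : ∑ y ∈ prm Y, (U.filter (fun u => r y u)).card
      = ∑ u ∈ U, ((prm Y).filter (fun y => r y u)).card := by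
    simp_rw [Finset.card_filter]
    exact Finset.sum_comm
  -- lower bound
  have hlow : ∀ y ∈ prm Y, (prm Z).card ^ 2 * J ≤ 200 * (U.filter (fun u => r y u)).card := by
    intro y hy
    have hy' := mem_prm.mp hy
    have hodd : y ≠ 2 := by omega
    have hmp := many_pairs Z y hy'.2 hodd hP
    set Q := (prs Z).filter (fun q : ℕ × ℕ => q.1 ≠ y ∧ q.2 ≠ y ∧
      IsSquare ((q.1 * q.2 : ℕ) : ZMod y)) with hQ
    have hcard : (U.filter (fun u => r y u)).card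
        = ∑ q ∈ prs Z, ((Icc 1 T).filter (fun x => r y (q, x))).card := by
      rw [Finset.card_filter, Finset.sum_product]
      apply Finset.sum_congr rfl
      intro q _
      rw [Finset.card_filter]
    have hge : ∑ q ∈ Q, ((Icc 1 T).filter (fun x => r y (q, x))).card
        ≤ ∑ q ∈ prs Z, ((Icc 1 T).filter (fun x => r y (q, x))).card :=
      Finset.sum_le_sum_of_subset (Finset.filter_subset _ _)
    have hq : ∀ q ∈ Q, J ≤ 2 * ((Icc 1 T).filter (fun x => r y (q, x))).card := by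
      intro q hq
      rw [hQ, mem_filter, mem_prs, mem_prm, mem_prm] at hq
      obtain ⟨⟨⟨h1, h2⟩, h3⟩, h4, h5, h6⟩ := hq
      have := many_x y p q.1 q.2 J hy'.2 hodd h1.2 h2.2 (by omega) (by omega) (Ne.symm h4)
        (Ne.symm h5) hJ h6
      refine this.trans (Nat.mul_le_mul_left 2 ?_)
      apply Finset.card_le_card
      intro x hx
      rw [mem_filter, mem_Icc] at hx ⊢
      refine ⟨⟨hx.1.1, ?_⟩, hx.2⟩
      have : y ^ 2 ≤ (4 * Y) ^ 2 := Nat.pow_le_pow_left hy'.1.2 2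
      calc x ≤ J * y ^ 2 := hx.1.2
        _ ≤ J * (4 * Y) ^ 2 := Nat.mul_le_mul_left _ this
        _ ≤ T := hT
    have hs : Q.card * J ≤ 2 * ∑ q ∈ Q, ((Icc 1 T).filter (fun x => r y (q, x))).card := by
      rw [Finset.mul_sum, ← smul_eq_mul, ← Finset.sum_const]
      exact Finset.sum_le_sum hq
    rw [hcard]
    calc (prm Z).card ^ 2 * J ≤ 100 * Q.card * J := Nat.mul_le_mul_right _ hmp
      _ = 100 * (Q.card * J) := by ring
      _ ≤ 100 * (2 * ∑ q ∈ Q, ((Icc 1 T).filter (fun x => r y (q, x))).card) :=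
          Nat.mul_le_mul_left _ hs
      _ ≤ 100 * (2 * ∑ q ∈ prs Z, ((Icc 1 T).filter (fun x => r y (q, x))).card) := by
          apply Nat.mul_le_mul_left
          exact Nat.mul_le_mul_left _ hge
      _ = _ := by ring
  have hlow2 : (prm Y).card * ((prm Z).card ^ 2 * J)
      ≤ 200 * ∑ y ∈ prm Y, (U.filter (fun u => r y u)).card := by
    rw [Finset.mul_sum, ← smul_eq_mul, ← Finset.sum_const]
    exact Finset.sum_le_sum hlow
  -- upper bound
  have hup : ∑ u ∈ U, ((prm Y).filter (fun y => r y u)).card ≤ 5 * (Rset p Z Y T).card := by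
    have hR : Rset p Z Y T ⊆ U := by
      intro u hu
      rw [mem_Rset] at hu
      rw [mem_product, mem_Icc]
      exact hu.1
    rw [← Finset.sum_subset hR]
    · rw [mul_comm, ← smul_eq_mul, ← Finset.sum_const]
      apply Finset.sum_le_sum
      intro u hu
      rw [mem_Rset, mem_prs, mem_prm, mem_prm] at hu
      obtain ⟨⟨⟨⟨h1, h2⟩, h3⟩, h4, h5⟩, h6, h7⟩ := hu
      set m := u.1.1 * u.1.2 with hm
      have hm1 : Z ^ 2 ≤ m := by
        rw [sq]; exact Nat.mul_le_mul h1.1.1.le h2.1.1.le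
      have hm2 : m ≤ 16 * Z ^ 2 := by
        calc m ≤ (4 * Z) * (4 * Z) := Nat.mul_le_mul h1.1.2 h2.1.2
          _ = 16 * Z ^ 2 := by ring
      have hx2 : u.2 ^ 2 < 4 * m ^ p := by
        calc u.2 ^ 2 ≤ T ^ 2 := Nat.pow_le_pow_left h5 2
          _ < 4 * (Z ^ 2) ^ p := hT2
          _ ≤ 4 * m ^ p := Nat.mul_le_mul_left _ (Nat.pow_le_pow_left hm1 p)
      apply few_y Y (by omega) (4 * m ^ p - u.2 ^ 2) (by omega)
      · calc 4 * m ^ p - u.2 ^ 2 ≤ 4 * m ^ p := Nat.sub_le _ _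
          _ ≤ 4 * (16 * Z ^ 2) ^ p := Nat.mul_le_mul_left _ (Nat.pow_le_pow_left hm2 p)
          _ < Y ^ 12 := hY12
      · intro y hy
        rw [mem_filter] at hy
        refine ⟨hy.1, ?_⟩
        have h8 := hy.2.2
        have h9 : (4 * ((u.1.1 * u.1.2 : ℕ) : ℤ) ^ p - (u.2 : ℤ) ^ 2)
            = ((4 * m ^ p - u.2 ^ 2 : ℕ) : ℤ) := by
          rw [Nat.cast_sub hx2.le]
          push_cast [hm]
          ring
        rw [h9] at h8
        exact_mod_cast h8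
    · intro u hu hu'
      rw [Finset.card_eq_zero, Finset.filter_eq_empty_iff]
      intro y hy hr
      apply hu'
      rw [mem_Rset]
      rw [mem_product, mem_Icc] at hu
      exact ⟨hu, hr.1, y, hy, hr.2⟩
  rw [hdc] at hlow2
  calc (prm Y).card * (prm Z).card ^ 2 * J = (prm Y).card * ((prm Z).card ^ 2 * J) := by ring
    _ ≤ 200 * ∑ u ∈ U, ((prm Y).filter (fun y => r y u)).card := hlow2
    _ ≤ 200 * (5 * (Rset p Z Y T).card) := Nat.mul_le_mul_left _ hup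
    _ = _ := by ring

end Pool.Agent.helper9.Tors
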