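import Pool.Agent.helper9.Tors.Cls

set_option autoImplicit false

open NumberField Module

namespace Pool.Agent.helper9.Tors

/-- Imaginary quadratic fields exist. -/
theorem exists_field (d : ℤ) (hd : d < 0) :
    ∃ (K : Type) (_ : Field K) (_ : NumberField K), finrank ℚ K = 2 ∧
      ∃ δ : K, δ ^ 2 = ((d : ℤ) : K) := by
  set f : Polynomial ℚ := Polynomial.X ^ 2 - Polynomial.C (d : ℚ) with hf
  have hmonic : f.Monic := Polynomial.monic_X_pow_sub_C _ two_ne_zero
  have hdeg : f.natDegree = 2 := Polynomial.natDegree_X_pow_sub_C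
  have hirr : Irreducible f := by
    rw [Polynomial.irreducible_iff_roots_eq_zero_of_degree_le_three (by omega) (by omega)]
    rw [Multiset.eq_zero_iff_forall_notMem]
    intro a ha
    rw [Polynomial.mem_roots hmonic.ne_zero, hf, Polynomial.IsRoot.def] at ha
    simp only [Polynomial.eval_sub, Polynomial.eval_pow, Polynomial.eval_X,
      Polynomial.eval_C] at ha
    have h1 : (d : ℚ) < 0 := by exact_mod_cast hd
    nlinarith [sq_nonneg a]
  have hfact : Fact (Irreducible f) := ⟨hirr⟩
  let K := AdjoinRoot f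
  let pb := AdjoinRoot.powerBasis (K := ℚ) hirr.ne_zero
  have hfin : FiniteDimensional ℚ K := pb.finite
  have hchar : CharZero K := algebraRat.charZero K
  have hnf : NumberField K := { to_charZero := hchar, to_finiteDimensional := hfin }
  refine ⟨K, inferInstance, hnf, ?_, AdjoinRoot.root f, ?_⟩
  · rw [pb.finrank, AdjoinRoot.powerBasis_dim, hdeg]
  · have h1 : Polynomial.eval₂ (AdjoinRoot.of f) (AdjoinRoot.root f)
        (Polynomial.X ^ 2 - Polynomial.C (d : ℚ)) = 0 := AdjoinRoot.eval₂_root f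
    simp only [Polynomial.eval₂_sub, Polynomial.eval₂_pow, Polynomial.eval₂_X,
      Polynomial.eval₂_C] at h1
    have h2 : (AdjoinRoot.of f) (d : ℚ) = ((d : ℤ) : AdjoinRoot f) := by
      simp
    rw [sub_eq_zero] at h1
    exact h1.trans h2

variable {K : Type} [Field K] [NumberField K]

theorem disc_rel (h2 : finrank ℚ K = 2) (T N : ℤ) (hneg : T ^ 2 - 4 * N < 0) (δ : K)
    (hδ : δ ^ 2 = ((T ^ 2 - 4 * N : ℤ) : K)) : ∃ b : ℤ, T ^ 2 - 4 * N = b ^ 2 * discr K := by
  set g : K := ((T : K) + δ) / 2 with hg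
  have hδ' : δ ^ 2 = (T : K) ^ 2 - 4 * N := by
    rw [hδ]; push_cast; ring
  have hgeq : g ^ 2 - (T : K) * g + (N : K) = 0 := by
    rw [hg]
    field_simp
    linear_combination hδ'
  have hint : IsIntegral ℤ g := by
    refine ⟨Polynomial.X ^ 2 + (Polynomial.C (-T) * Polynomial.X + Polynomial.C N), ?_, ?_⟩
    · apply Polynomial.monic_X_pow_add
      refine lt_of_le_of_lt (Polynomial.degree_linear_le) ?_
      norm_num
    · simp only [Polynomial.eval₂_add, Polynomial.eval₂_mul,
        Polynomial.eval₂_pow, Polynomial.eval₂_X, Polynomial.eval₂_C]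
      have : g ^ 2 + (-(T : K) * g + (N : K)) = 0 := by linear_combination hgeq
      simpa using this
  set γ : 𝓞 K := ⟨g, hint⟩ with hγ
  have hγK : (γ : K) = g := rfl
  have heq : γ ^ 2 - (T : 𝓞 K) * γ + (N : 𝓞 K) = 0 := by
    apply RingOfIntegers.ext
    simpa [hγK] using hgeq
  obtain ⟨t, n, b, h1, hn, h3⟩ := quad_rel h2 γ
  have h4 := irrational_of γ T N heq hneg (T - t) (N - n) (by
    push_cast
    linear_combination h1 - heq)
  have hT : t = T := by omega
  subst hT
  have hN : n = N := by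
    have : ((n : ℤ) : 𝓞 K) = ((N : ℤ) : 𝓞 K) := by linear_combination h1 - heq
    exact_mod_cast this
  subst hN
  exact ⟨b, h3⟩

/-- The discriminant of an imaginary quadratic field is not divisible by the square of an odd
number larger than `2`. -/
theorem not_sq_dvd (h2 : finrank ℚ K = 2) (hD : discr K < 0) (y : ℤ) (hy : 2 < y) :
    ¬ y ^ 2 ∣ discr K := by
  rintro ⟨d', hd'⟩
  obtain ⟨δ, hδ⟩ := exists_sqrt h2
  have hy0 : (y : K) ≠ 0 := by
    have : y ≠ 0 := by omega
    exact_mod_cast this
  have hd0 : d' < 0 := by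
    have : 0 < y ^ 2 := by positivity
    by_contra hcon
    push Not at hcon
    nlinarith [mul_nonneg this.le hcon]
  obtain ⟨b, hb⟩ := disc_rel h2 0 (-d') (by linarith) (2 * δ / y) (by
    rw [div_pow, mul_pow, hδ, hd', div_eq_iff (pow_ne_zero 2 hy0)]
    push_cast
    ring)
  rw [hd'] at hb
  have h1 : (4 - b ^ 2 * y ^ 2) * d' = 0 := by linear_combination hb
  rcases mul_eq_zero.mp h1 with h | h
  · have h5 : (b * y) ^ 2 = 2 ^ 2 := by linear_combination -h
    rcases sq_eq_sq_iff_eq_or_eq_neg.mp h5 with h6 | h6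
    · have : y ∣ 2 := ⟨b, by rw [← h6]; ring⟩
      have := Int.le_of_dvd (by norm_num) this
      omega
    · have : y ∣ 2 := ⟨-b, by linear_combination h6⟩
      have := Int.le_of_dvd (by norm_num) this
      omega
  · omega

end Pool.Agent.helper9.Tors
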