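import Mathlib

set_option autoImplicit false

namespace Pool.Agent.helper9.Tors

section
variable {l m p d : ℕ}

/-- `(x, b)` solves `x² + d b² = 4 m^p`. -/
structure Sol (m p d : ℕ) (v : ℕ × ℕ) : Prop where
  pos : 0 < v.2
  cop : Nat.Coprime v.1 m
  eq : v.1 ^ 2 + d * v.2 ^ 2 = 4 * m ^ p

theorem Sol.not_dvd_x (hl : l.Prime) (hlm : l ∣ m) {v : ℕ × ℕ} (h : Sol m p d v) :
    ¬ (l : ℤ) ∣ (v.1 : ℤ) := by
  intro hd
  have h1 : l ∣ v.1 := by exact_mod_cast hd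
  have := Nat.dvd_gcd h1 hlm
  rw [h.cop] at this
  exact hl.one_lt.ne' (Nat.dvd_one.mp this)

theorem Sol.not_dvd_b (hp : p ≠ 0) (hl : l.Prime) (hlm : l ∣ m) {v : ℕ × ℕ} (h : Sol m p d v) :
    ¬ (l : ℤ) ∣ (v.2 : ℤ) := by
  intro hd
  have h1 : l ∣ v.2 := by exact_mod_cast hd
  apply h.not_dvd_x hl hlm
  have h2 : l ∣ v.1 ^ 2 := by
    have h3 : l ∣ v.1 ^ 2 + d * v.2 ^ 2 := by
      rw [h.eq]
      exact Dvd.dvd.mul_left (hlm.trans (dvd_pow_self _ hp)) _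
    exact (Nat.dvd_add_left (Dvd.dvd.mul_left (h1.trans (dvd_pow_self _ two_ne_zero)) _)).mp h3
  exact_mod_cast hl.dvd_of_dvd_pow h2

theorem Sol.eqZ {v : ℕ × ℕ} (h : Sol m p d v) :
    (v.1 : ℤ) ^ 2 + d * (v.2 : ℤ) ^ 2 = 4 * (m : ℤ) ^ p := by
  exact_mod_cast h.eq

theorem dichot (hp : p ≠ 0) (hl : l.Prime) (hodd : l ≠ 2) (hlm : l ∣ m) {v w : ℕ × ℕ}
    (hv : Sol m p d v) (hw : Sol m p d w) :
    ((l : ℤ) ^ p ∣ (v.1 : ℤ) * w.2 - w.1 * v.2) ∨ ((l : ℤ) ^ p ∣ (v.1 : ℤ) * w.2 + w.1 * v.2) := by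
  have hlI : Prime (l : ℤ) := Nat.prime_iff_prime_int.mp hl
  have hprod : ((v.1 : ℤ) * w.2 - w.1 * v.2) * ((v.1 : ℤ) * w.2 + w.1 * v.2)
      = (m : ℤ) ^ p * (4 * ((w.2 : ℤ) ^ 2 - (v.2 : ℤ) ^ 2)) := by
    have h1 := hv.eqZ
    have h2 := hw.eqZ
    linear_combination (w.2 : ℤ) ^ 2 * h1 - (v.2 : ℤ) ^ 2 * h2
  have hdvd : (l : ℤ) ^ p ∣ ((v.1 : ℤ) * w.2 - w.1 * v.2) * ((v.1 : ℤ) * w.2 + w.1 * v.2) := by
    rw [hprod]
    have : (l : ℤ) ∣ (m : ℤ) := by exact_mod_cast hlm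
    exact Dvd.dvd.mul_right (pow_dvd_pow_of_dvd this p) _
  by_cases h1 : (l : ℤ) ∣ (v.1 : ℤ) * w.2 - w.1 * v.2
  · left
    have h2 : ¬ (l : ℤ) ∣ (v.1 : ℤ) * w.2 + w.1 * v.2 := by
      intro h3
      have h4 : (l : ℤ) ∣ 2 * ((v.1 : ℤ) * w.2) := by
        have := dvd_add h1 h3
        have e : ((v.1 : ℤ) * w.2 - w.1 * v.2) + ((v.1 : ℤ) * w.2 + w.1 * v.2)
          = 2 * ((v.1 : ℤ) * w.2) := by ring
        rwa [e] at this
      rcases hlI.dvd_or_dvd h4 with h5 | h5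
      · have : l ∣ 2 := by exact_mod_cast h5
        exact hodd ((Nat.prime_dvd_prime_iff_eq hl Nat.prime_two).mp this)
      · rcases hlI.dvd_or_dvd h5 with h6 | h6
        · exact hv.not_dvd_x hl hlm h6
        · exact hw.not_dvd_b hp hl hlm h6
    have hcop : IsCoprime ((l : ℤ) ^ p) ((v.1 : ℤ) * w.2 + w.1 * v.2) :=
      ((hlI.irreducible.coprime_iff_not_dvd).mpr h2).pow_left
    exact hcop.dvd_of_dvd_mul_right hdvd
  · right
    have hcop : IsCoprime ((l : ℤ) ^ p) ((v.1 : ℤ) * w.2 - w.1 * v.2) :=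
      ((hlI.irreducible.coprime_iff_not_dvd).mpr h1).pow_left
    exact hcop.dvd_of_dvd_mul_left hdvd

theorem same_sign (hp : p ≠ 0) (hl : l.Prime) (hodd : l ≠ 2) (hlm : l ∣ m) {v w z : ℕ × ℕ}
    (hv : Sol m p d v) (hw : Sol m p d w) (hz : Sol m p d z)
    (hiff : ((l : ℤ) ^ p ∣ (v.1 : ℤ) * z.2 - z.1 * v.2) ↔
      ((l : ℤ) ^ p ∣ (w.1 : ℤ) * z.2 - z.1 * w.2)) :
    (l : ℤ) ^ p ∣ (v.1 : ℤ) * w.2 - w.1 * v.2 := by
  have hlI : Prime (l : ℤ) := Nat.prime_iff_prime_int.mp hl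
  have hcop : IsCoprime ((l : ℤ) ^ p) (z.2 : ℤ) :=
    ((hlI.irreducible.coprime_iff_not_dvd).mpr (hz.not_dvd_b hp hl hlm)).pow_left
  by_cases h : (l : ℤ) ^ p ∣ (v.1 : ℤ) * z.2 - z.1 * v.2
  · have h' := hiff.mp h
    refine hcop.dvd_of_dvd_mul_left ?_
    have e : (z.2 : ℤ) * ((v.1 : ℤ) * w.2 - w.1 * v.2)
      = ((v.1 : ℤ) * z.2 - z.1 * v.2) * w.2 - ((w.1 : ℤ) * z.2 - z.1 * w.2) * v.2 := by ring
    rw [e]
    exact dvd_sub (Dvd.dvd.mul_right h _) (Dvd.dvd.mul_right h' _)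
  · have h' : ¬ (l : ℤ) ^ p ∣ (w.1 : ℤ) * z.2 - z.1 * w.2 := fun h2 => h (hiff.mpr h2)
    have g := (dichot hp hl hodd hlm hv hz).resolve_left h
    have g' := (dichot hp hl hodd hlm hw hz).resolve_left h'
    refine hcop.dvd_of_dvd_mul_left ?_
    have e : (z.2 : ℤ) * ((v.1 : ℤ) * w.2 - w.1 * v.2)
      = ((v.1 : ℤ) * z.2 + z.1 * v.2) * w.2 - ((w.1 : ℤ) * z.2 + z.1 * w.2) * v.2 := by ring
    rw [e]
    exact dvd_sub (Dvd.dvd.mul_right g _) (Dvd.dvd.mul_right g' _)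

end

/-- For given `m = l₁ l₂` and `d` there are at most `36` solutions. -/
theorem few_sols (l₁ l₂ p d : ℕ) (hp : p ≠ 0) (h1 : l₁.Prime) (h2 : l₂.Prime) (ho1 : l₁ ≠ 2)
    (ho2 : l₂ ≠ 2) (hne : l₁ ≠ l₂) (hd : 0 < d) (S : Finset (ℕ × ℕ))
    (hS : ∀ v ∈ S, Sol (l₁ * l₂) p d v) : S.card ≤ 36 := by
  classical
  rcases S.eq_empty_or_nonempty with rfl | ⟨z, hz⟩
  · simp
  set m := l₁ * l₂ with hm
  have hm0 : 0 < m := Nat.mul_pos h1.pos h2.pos
  have hd1 : l₁ ∣ m := dvd_mul_right _ _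
  have hd2 : l₂ ∣ m := dvd_mul_left _ _
  let f : ℕ × ℕ → Bool × Bool := fun v =>
    (decide ((l₁ : ℤ) ^ p ∣ (v.1 : ℤ) * z.2 - z.1 * v.2),
      decide ((l₂ : ℤ) ^ p ∣ (v.1 : ℤ) * z.2 - z.1 * v.2))
  have hcard := Finset.card_le_mul_card_image (f := f) S 9 (by
    intro a _
    rcases (S.filter (fun v => f v = a)).eq_empty_or_nonempty with he | ⟨w, hw⟩
    · rw [he]; simp
    rw [Finset.mem_filter] at hw
    have hSw := hS w hw.1
    have hdvd : ∀ v ∈ S.filter (fun v => f v = a), (m : ℤ) ^ p ∣ (v.1 : ℤ) * w.2 - w.1 * v.2 := by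
      intro v hv
      rw [Finset.mem_filter] at hv
      have hf : f v = f w := hv.2.trans hw.2.symm
      have hf1 := congrArg Prod.fst hf
      have hf2 := congrArg Prod.snd hf
      simp only [f, decide_eq_decide] at hf1 hf2
      have g1 := same_sign hp h1 ho1 hd1 (hS v hv.1) hSw (hS z hz) hf1
      have g2 := same_sign hp h2 ho2 hd2 (hS v hv.1) hSw (hS z hz) hf2
      have hc : IsCoprime ((l₁ : ℤ) ^ p) ((l₂ : ℤ) ^ p) := by
        apply IsCoprime.pow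
        exact Nat.isCoprime_iff_coprime.mpr ((Nat.coprime_primes h1 h2).mpr hne)
      rw [hm]
      push_cast
      rw [mul_pow]
      exact hc.mul_dvd g1 g2
    let k : ℕ × ℕ → ℤ := fun v => ((v.1 : ℤ) * w.2 - w.1 * v.2) / (m : ℤ) ^ p
    have hmp : (0 : ℤ) < (m : ℤ) ^ p := by positivity
    have hk : ∀ v ∈ S.filter (fun v => f v = a),
        (v.1 : ℤ) * w.2 - w.1 * v.2 = (m : ℤ) ^ p * k v := fun v hv =>
      (Int.mul_ediv_cancel' (hdvd v hv)).symm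
    have hbound : ∀ v ∈ S, ∀ u ∈ S, (v.1 : ℤ) * u.2 ≤ 4 * (m : ℤ) ^ p := by
      intro v hv u hu
      have e1 := (hS v hv).eqZ
      have e2 := (hS u hu).eqZ
      have hdr : (1 : ℤ) ≤ d := by exact_mod_cast hd
      have b1 : (v.1 : ℤ) ^ 2 ≤ 4 * (m : ℤ) ^ p := by nlinarith [sq_nonneg (v.2 : ℤ)]
      have b2 : (u.2 : ℤ) ^ 2 ≤ 4 * (m : ℤ) ^ p := by
        nlinarith [sq_nonneg (u.2 : ℤ), sq_nonneg (u.1 : ℤ)]
      nlinarith [sq_nonneg ((v.1 : ℤ) - u.2)]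
    have hmaps : (S.filter (fun v => f v = a)).image k ⊆ Finset.Icc (-4 : ℤ) 4 := by
      intro c hc
      rw [Finset.mem_image] at hc
      obtain ⟨v, hv, rfl⟩ := hc
      have hv' := (Finset.mem_filter.mp hv).1
      have e := hk v hv
      have b1 := hbound v hv' w hw.1
      have b2 := hbound w hw.1 v hv'
      have p1 : (0 : ℤ) ≤ (v.1 : ℤ) * w.2 := by positivity
      have p2 : (0 : ℤ) ≤ (w.1 : ℤ) * v.2 := by positivity
      rw [Finset.mem_Icc]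
      constructor <;> nlinarith
    have hinj : Set.InjOn k ((S.filter (fun v => f v = a) : Finset (ℕ × ℕ)) : Set (ℕ × ℕ)) := by
      intro v hv u hu hvu
      rw [Finset.mem_coe] at hv hu
      have e1 := hk v hv
      have e2 := hk u hu
      rw [hvu, ← e2] at e1
      have hv' := hS v (Finset.mem_filter.mp hv).1
      have hu' := hS u (Finset.mem_filter.mp hu).1
      have q1 := hv'.eqZ
      have q2 := hu'.eqZ
      have hwb : (0 : ℤ) < w.2 := by exact_mod_cast hSw.pos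
      have hwx : (0 : ℤ) < w.1 := by
        have : w.1 ≠ 0 := by
          intro h0
          apply hSw.not_dvd_x h1 hd1
          rw [h0]; simp
        have : 0 < w.1 := Nat.pos_of_ne_zero this
        exact_mod_cast this
      have hx0 : (0 : ℤ) ≤ v.1 := by positivity
      have hx1 : (0 : ℤ) ≤ u.1 := by positivity
      have hy0 : (0 : ℤ) ≤ v.2 := by positivity
      have hy1 : (0 : ℤ) ≤ u.2 := by positivity
      have hdr : (0 : ℤ) ≤ d := by positivity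
      -- `(x - x') b₁ = (b - b') x₁`
      have e3 : ((v.1 : ℤ) - u.1) * w.2 = ((v.2 : ℤ) - u.2) * w.1 := by linarith
      rcases lt_trichotomy (v.1 : ℤ) (u.1 : ℤ) with hlt | heq | hgt
      · exfalso
        have h3 : (v.2 : ℤ) < u.2 := by
          by_contra hcon
          push Not at hcon
          nlinarith
        nlinarith [mul_nonneg hdr (by nlinarith : (0 : ℤ) ≤ (u.2 : ℤ) ^ 2 - (v.2 : ℤ) ^ 2)]
      · rw [heq] at e3
        have h3 : ((v.2 : ℤ) - u.2) * w.1 = 0 := by linarith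
        have h4 : (v.2 : ℤ) = u.2 := by
          rcases mul_eq_zero.mp h3 with h | h
          · linarith
          · exact absurd h hwx.ne'
        exact Prod.ext (by exact_mod_cast heq) (by exact_mod_cast h4)
      · exfalso
        have h3 : (u.2 : ℤ) < v.2 := by
          by_contra hcon
          push Not at hcon
          nlinarith
        nlinarith [mul_nonneg hdr (by nlinarith : (0 : ℤ) ≤ (v.2 : ℤ) ^ 2 - (u.2 : ℤ) ^ 2)]
    rw [← Finset.card_image_of_injOn hinj]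
    calc _ ≤ (Finset.Icc (-4 : ℤ) 4).card := Finset.card_le_card hmaps
      _ = 9 := by decide)
  have himg : (S.image f).card ≤ 4 := by
    calc _ ≤ (Finset.univ : Finset (Bool × Bool)).card := Finset.card_le_card (Finset.subset_univ _)
      _ = 4 := by simp
  calc S.card ≤ 9 * (S.image f).card := hcard
    _ ≤ 9 * 4 := Nat.mul_le_mul_left _ himg
    _ = 36 := by norm_num

end Pool.Agent.helper9.Tors
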