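import Pool.Agent.helper9.Tors.Asymp

set_option autoImplicit false

namespace Pool.Agent.helper9.Tors

open Finset Filter Topology NumberField Module

/-- The error term in the second case. -/
def errB (p Z B : ℕ) : ℕ := 324 * Z ^ 2 * (4 * (16 * Z ^ 2) ^ p / (B + 1) ^ 2) +
  9 * Z ^ 2 * ∑ b ∈ Finset.Icc 1 B, ((b ^ 2).divisors).card

theorem bad_caseB (p Z Y B : ℕ) (hp : 5 ≤ p) (hZ : 2000 ≤ Z) :
    ∀ S ⊆ Rset p Z Y (Z ^ p), (∀ u ∈ S, ∃ d b : ℕ, 0 < d ∧ d ≤ 1024 * Z ^ 4 ∧ 0 < b ∧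
      u.2 ^ 2 + d * b ^ 2 = 4 * (u.1.1 * u.1.2) ^ p) → S.card ≤ errB p Z B := by
  classical
  intro S hSR hS
  set W := 4 * (16 * Z ^ 2) ^ p / (B + 1) ^ 2 with hW
  set S1 := S.filter (fun u => ∃ b : ℕ, 0 < b ∧ b ≤ B ∧ 4 * Z ^ p < b ^ 2 ∧
      (b : ℤ) ^ 2 ∣ 4 * ((u.1.1 * u.1.2 : ℕ) : ℤ) ^ p - (u.2 : ℤ) ^ 2) with hS1
  set S2 := S.filter (fun u => ¬ ∃ b : ℕ, 0 < b ∧ b ≤ B ∧ 4 * Z ^ p < b ^ 2 ∧
      (b : ℤ) ^ 2 ∣ 4 * ((u.1.1 * u.1.2 : ℕ) : ℤ) ^ p - (u.2 : ℤ) ^ 2) with hS2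
  have hcard : S1.card + S2.card = S.card := Finset.card_filter_add_card_filter_not _
  have h1 : S1.card ≤ 9 * Z ^ 2 * ∑ b ∈ Finset.Icc 1 B, ((b ^ 2).divisors).card := by
    apply bad_root p Z Y (Z ^ p) B (by omega) S1 ((Finset.filter_subset _ _).trans hSR)
    intro u hu
    exact (Finset.mem_filter.mp hu).2
  have h2 : S2.card ≤ 324 * Z ^ 2 * W := by
    apply bad_disc p Z Y (Z ^ p) W (by omega) (by omega) S2 ((Finset.filter_subset _ _).trans hSR)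
    intro u hu
    have hu' := Finset.mem_filter.mp hu
    obtain ⟨d, b, hd0, hdW, hb0, heq⟩ := hS u hu'.1
    refine ⟨d, b, hd0, ?_, hb0, heq⟩
    obtain ⟨⟨hq, hx1, hxT⟩, hcop, _⟩ := mem_Rset.mp (hSR hu'.1)
    obtain ⟨q1, q2, q3, q4, q5, hm1, hm2⟩ := prs_facts hq
    set m := u.1.1 * u.1.2 with hm
    have hbB : B + 1 ≤ b := by
      by_contra hcon
      push Not at hcon
      apply hu'.2
      refine ⟨b, hb0, by omega, ?_, ?_⟩
      · by_contra hcon2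
        push Not at hcon2
        have e1 : u.2 ^ 2 ≤ m ^ p := by
          calc u.2 ^ 2 ≤ (Z ^ p) ^ 2 := Nat.pow_le_pow_left hxT 2
            _ = (Z ^ 2) ^ p := by rw [← pow_mul, ← pow_mul, mul_comm]
            _ ≤ m ^ p := Nat.pow_le_pow_left hm1 p
        have e2 : (Z ^ 2) ^ p ≤ m ^ p := Nat.pow_le_pow_left hm1 p
        have e3 : 3 * (Z ^ 2) ^ p ≤ d * b ^ 2 := by omega
        have e4 : d * b ^ 2 ≤ (1024 * Z ^ 4) * (4 * Z ^ p) := Nat.mul_le_mul hdW hcon2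
        have e5 : (Z ^ 2) ^ p = Z ^ p * Z ^ p := by rw [← pow_mul, ← pow_add]; congr 1; ring
        rw [e5] at e3
        have e6 : (3 * Z ^ p) * Z ^ p ≤ (4096 * Z ^ 4) * Z ^ p := by
          calc (3 * Z ^ p) * Z ^ p = 3 * (Z ^ p * Z ^ p) := by ring
            _ ≤ (1024 * Z ^ 4) * (4 * Z ^ p) := e3.trans e4
            _ = (4096 * Z ^ 4) * Z ^ p := by ring
        have hZp : 0 < Z ^ p := by positivity
        have e7 : 3 * Z ^ p ≤ 4096 * Z ^ 4 := Nat.le_of_mul_le_mul_right e6 hZp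
        have e8 : Z ^ 5 ≤ Z ^ p := Nat.pow_le_pow_right (by omega) hp
        have e9 : (3 * Z) * Z ^ 4 ≤ 4096 * Z ^ 4 := by
          calc (3 * Z) * Z ^ 4 = 3 * Z ^ 5 := by ring
            _ ≤ 3 * Z ^ p := Nat.mul_le_mul_left _ e8
            _ ≤ _ := e7
        have e10 : 3 * Z ≤ 4096 := Nat.le_of_mul_le_mul_right e9 (by positivity)
        omega
      · have : (4 * ((m : ℕ) : ℤ) ^ p - (u.2 : ℤ) ^ 2) = (d : ℤ) * (b : ℤ) ^ 2 := by
          have : ((u.2 : ℤ)) ^ 2 + (d : ℤ) * (b : ℤ) ^ 2 = 4 * (m : ℤ) ^ p := by exact_mod_cast heq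
          linarith
        rw [this]
        exact dvd_mul_left _ _
    rw [hW, Nat.le_div_iff_mul_le (by positivity)]
    calc d * (B + 1) ^ 2 ≤ d * b ^ 2 := Nat.mul_le_mul_left _ (Nat.pow_le_pow_left hbB 2)
      _ ≤ 4 * m ^ p := by omega
      _ ≤ 4 * (16 * Z ^ 2) ^ p := Nat.mul_le_mul_left _ (Nat.pow_le_pow_left hm2 p)
  have h3 := Nat.add_le_add h2 h1
  rw [hW] at h3
  unfold errB
  rw [← hcard, Nat.add_comm]
  exact h3

/-- Size of the error term in the second case. -/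
theorem errB_le (p : ℕ) (a κ η : ℝ) (hκ : 0 < κ) (hκ1 : κ < 1 / 2) (hη : 0 < η) :
    ∃ C : ℝ, 0 < C ∧ ∀ N Z : ℕ, 1 ≤ N → (Z : ℝ) ≤ (N : ℝ) ^ a →
      ((errB p Z ⌊(N : ℝ) ^ (1 / 2 - κ)⌋₊ : ℕ) : ℝ) ≤
        C * (N : ℝ) ^ (2 * a + 2 * (p * a) - 1 + 2 * κ) +
        C * (N : ℝ) ^ (2 * a + (1 / 2 - κ) * (1 + 2 * η)) := by
  obtain ⟨C₀, hC₀, hdiv⟩ := divisor_bound η hη
  refine ⟨324 * (4 * 16 ^ p) + 9 * C₀, by positivity, ?_⟩
  intro N Z hN1 hZ
  set X : ℝ := (N : ℝ) with hX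
  have hX1 : 1 ≤ X := by rw [hX]; exact_mod_cast hN1
  have hX0 : 0 < X := by linarith
  set B := ⌊X ^ (1 / 2 - κ)⌋₊ with hB
  have hBu : (B : ℝ) ≤ X ^ (1 / 2 - κ) := Nat.floor_le (by positivity)
  have hBl : X ^ (1 / 2 - κ) ≤ (B : ℝ) + 1 := (Nat.lt_floor_add_one _).le
  have hZ2 : (Z : ℝ) ^ 2 ≤ X ^ (2 * a) := by
    have : (X ^ a) ^ 2 = X ^ (2 * a) := by
      rw [← Real.rpow_natCast, ← Real.rpow_mul hX0.le]; congr 1; push_cast; ring
    rw [← this]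
    exact pow_le_pow_left₀ (by positivity) hZ 2
  have hZp : ((Z : ℝ) ^ 2) ^ p ≤ X ^ (2 * (p * a)) := by
    have : (X ^ (2 * a)) ^ p = X ^ (2 * (p * a)) := by
      rw [← Real.rpow_natCast, ← Real.rpow_mul hX0.le]; congr 1; ring
    rw [← this]
    exact pow_le_pow_left₀ (by positivity) hZ2 p
  -- first part
  have hW : ((4 * (16 * Z ^ 2) ^ p / (B + 1) ^ 2 : ℕ) : ℝ)
      ≤ 4 * 16 ^ p * X ^ (2 * (p * a) - 1 + 2 * κ) := by
    calc ((4 * (16 * Z ^ 2) ^ p / (B + 1) ^ 2 : ℕ) : ℝ)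
        ≤ ((4 * (16 * Z ^ 2) ^ p : ℕ) : ℝ) / (((B + 1) ^ 2 : ℕ) : ℝ) := Nat.cast_div_le
      _ = 4 * 16 ^ p * ((Z : ℝ) ^ 2) ^ p / ((B : ℝ) + 1) ^ 2 := by
          push_cast; rw [mul_pow (16 : ℝ)]; ring
      _ ≤ 4 * 16 ^ p * X ^ (2 * (p * a)) / (X ^ (1 / 2 - κ)) ^ 2 := by
          apply div_le_div₀ (by positivity) _ (by positivity)
          · exact pow_le_pow_left₀ (by positivity) hBl 2
          · exact mul_le_mul_of_nonneg_left hZp (by positivity)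
      _ = 4 * 16 ^ p * X ^ (2 * (p * a) - 1 + 2 * κ) := by
          have : (X ^ (1 / 2 - κ)) ^ 2 = X ^ (1 - 2 * κ) := by
            rw [← Real.rpow_natCast, ← Real.rpow_mul hX0.le]; congr 1; push_cast; ring
          rw [this, mul_div_assoc, ← Real.rpow_sub hX0]
          congr 2; ring
  have hfirst : ((324 * Z ^ 2 * (4 * (16 * Z ^ 2) ^ p / (B + 1) ^ 2) : ℕ) : ℝ)
      ≤ 324 * (4 * 16 ^ p) * X ^ (2 * a + 2 * (p * a) - 1 + 2 * κ) := by
    push_cast [Nat.cast_mul]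
    have h1 : (324 : ℝ) * (Z : ℝ) ^ 2 * ((4 * (16 * Z ^ 2) ^ p / (B + 1) ^ 2 : ℕ) : ℝ)
        ≤ 324 * X ^ (2 * a) * (4 * 16 ^ p * X ^ (2 * (p * a) - 1 + 2 * κ)) := by
      apply mul_le_mul _ hW (by positivity) (by positivity)
      exact mul_le_mul_of_nonneg_left hZ2 (by norm_num)
    refine h1.trans (le_of_eq ?_)
    have : X ^ (2 * a + 2 * (p * a) - 1 + 2 * κ) = X ^ (2 * a) * X ^ (2 * (p * a) - 1 + 2 * κ) := by
      rw [← Real.rpow_add hX0]; congr 1; ring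
    rw [this]; ring
  -- second part
  have hsum : ((∑ b ∈ Finset.Icc 1 B, ((b ^ 2).divisors).card : ℕ) : ℝ)
      ≤ C₀ * X ^ ((1 / 2 - κ) * (1 + 2 * η)) := by
    push_cast
    calc ∑ b ∈ Finset.Icc 1 B, (((b ^ 2).divisors).card : ℝ)
        ≤ ∑ b ∈ Finset.Icc 1 B, C₀ * X ^ ((1 / 2 - κ) * (2 * η)) := by
          apply Finset.sum_le_sum
          intro b hb
          rw [Finset.mem_Icc] at hb
          have hb0 : 0 < b := hb.1
          refine (hdiv (b ^ 2) (by positivity)).trans ?_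
          apply mul_le_mul_of_nonneg_left _ hC₀.le
          push_cast
          have hbB : (b : ℝ) ≤ X ^ (1 / 2 - κ) := by
            have : (b : ℝ) ≤ B := by exact_mod_cast hb.2
            linarith
          calc ((b : ℝ) ^ 2) ^ η ≤ ((X ^ (1 / 2 - κ)) ^ 2) ^ η :=
                Real.rpow_le_rpow (by positivity) (pow_le_pow_left₀ (by positivity) hbB 2) hη.le
            _ = X ^ ((1 / 2 - κ) * (2 * η)) := by
                rw [← Real.rpow_natCast, ← Real.rpow_mul hX0.le, ← Real.rpow_mul hX0.le]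
                congr 1; push_cast; ring
      _ = (B : ℝ) * (C₀ * X ^ ((1 / 2 - κ) * (2 * η))) := by
          rw [Finset.sum_const, Nat.card_Icc, nsmul_eq_mul]
          simp
      _ ≤ X ^ (1 / 2 - κ) * (C₀ * X ^ ((1 / 2 - κ) * (2 * η))) :=
          mul_le_mul_of_nonneg_right hBu (by positivity)
      _ = C₀ * X ^ ((1 / 2 - κ) * (1 + 2 * η)) := by
          have : X ^ ((1 / 2 - κ) * (1 + 2 * η)) = X ^ (1 / 2 - κ) * X ^ ((1 / 2 - κ) * (2 * η)) := by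
            rw [← Real.rpow_add hX0]; congr 1; ring
          rw [this]; ring
  have hsecond : ((9 * Z ^ 2 * ∑ b ∈ Finset.Icc 1 B, ((b ^ 2).divisors).card : ℕ) : ℝ)
      ≤ 9 * C₀ * X ^ (2 * a + (1 / 2 - κ) * (1 + 2 * η)) := by
    rw [Nat.cast_mul]
    have h1 : ((9 * Z ^ 2 : ℕ) : ℝ) ≤ 9 * X ^ (2 * a) := by
      push_cast
      exact mul_le_mul_of_nonneg_left hZ2 (by norm_num)
    calc _ ≤ (9 * X ^ (2 * a)) * (C₀ * X ^ ((1 / 2 - κ) * (1 + 2 * η))) :=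
          mul_le_mul h1 hsum (by positivity) (by positivity)
      _ = _ := by
          rw [Real.rpow_add hX0]; ring
  unfold errB
  rw [Nat.cast_add]
  have p1 : 0 < X ^ (2 * a + 2 * (p * a) - 1 + 2 * κ) := by positivity
  have p2 : 0 < X ^ (2 * a + (1 / 2 - κ) * (1 + 2 * η)) := by positivity
  have p3 : (0 : ℝ) < 324 * (4 * 16 ^ p) := by positivity
  have p4 : (0 : ℝ) < 9 * C₀ := by positivity
  calc _ ≤ 324 * (4 * 16 ^ p) * X ^ (2 * a + 2 * (p * a) - 1 + 2 * κ)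
        + 9 * C₀ * X ^ (2 * a + (1 / 2 - κ) * (1 + 2 * η)) := add_le_add hfirst hsecond
    _ ≤ _ := by nlinarith

open Classical in
/-- The final asymptotic statement, over the discriminants of quadratic fields. -/
theorem final (p : ℕ) (hp : 5 ≤ p) (f : ℤ → ℕ)
    (hf : ∀ (K : Type) [Field K] [NumberField K], finrank ℚ K = 2 →
      f (discr K) = Nat.card {x : ClassGroup (𝓞 K) // x ^ p = 1}) (ε : ℝ) (hε : 0 < ε) :
    ∀ᶠ N : ℕ in atTop,
      (N : ℝ) ^ (1 / 2 + min (2 / (p : ℝ)) (max (1 / 4) (3 / (2 * p))) - ε) ≤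
      ∑ D ∈ (Finset.Ioo (-(N : ℤ)) 0).filter QD, ((f D : ℝ) - 1) := by
  have hpR : (5 : ℝ) ≤ p := by exact_mod_cast hp
  have hp0 : (0 : ℝ) < p := by linarith
  set θ : ℝ := min (1 / (p : ℝ)) (max (1 / 8) (3 / (4 * p))) with hθ
  have hθ2 : min (2 / (p : ℝ)) (max (1 / 4) (3 / (2 * p))) = 2 * θ := by
    rw [hθ, mul_min_of_nonneg _ _ (by norm_num : (0 : ℝ) ≤ 2),
      mul_max_of_nonneg _ _ (by norm_num : (0 : ℝ) ≤ 2)]
    congr 1
    · ring
    · congr 1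
      · norm_num
      · field_simp; norm_num
  rw [hθ2]
  have hpθ1 : p * θ ≤ 1 := by
    have : θ ≤ 1 / p := min_le_left _ _
    calc p * θ ≤ p * (1 / p) := mul_le_mul_of_nonneg_left this hp0.le
      _ = 1 := by field_simp
  have hpθ2 : 3 / 4 ≤ p * θ := by
    have h1 : 3 / (4 * p) ≤ θ := by
      rw [hθ]
      apply le_min
      · rw [div_le_div_iff₀ (by positivity) hp0]; nlinarith
      · exact le_max_right _ _
    calc (3 : ℝ) / 4 = p * (3 / (4 * p)) := by field_simp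
      _ ≤ p * θ := mul_le_mul_of_nonneg_left h1 hp0.le
  set δ : ℝ := min (ε / 4) (1 / (40 * p)) with hδ
  have hδ0 : 0 < δ := lt_min (by linarith) (by positivity)
  have hδε : δ ≤ ε / 4 := min_le_left _ _
  have hpδ : p * δ ≤ 1 / 40 := by
    have : δ ≤ 1 / (40 * p) := min_le_right _ _
    calc p * δ ≤ p * (1 / (40 * p)) := mul_le_mul_of_nonneg_left this hp0.le
      _ = 1 / 40 := by field_simp
  have hδ1 : δ ≤ 1 / 200 := by nlinarith
  set a : ℝ := θ - δ with ha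
  have hpa : p * a = p * θ - p * δ := by rw [ha]; ring
  have hpa1 : p * a < 1 := by
    have : 0 < p * δ := by positivity
    rw [hpa]; linarith
  have hpa2 : (7 : ℝ) / 10 ≤ p * a := by rw [hpa]; linarith
  have ha0 : 0 < a := by
    by_contra hcon
    push Not at hcon
    nlinarith
  have ha3 : a ≤ 1 / 4 := by nlinarith
  set η : ℝ := δ / 4 with hη
  have hη0 : 0 < η := by rw [hη]; linarith
  obtain ⟨c, hc, hpar⟩ := params p hp a η ha0 hη0 (by rw [hη]; linarith) hpa1 hpa2 ha3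
  -- the error terms
  have herr : ∃ C s : ℝ, 0 < C ∧ s < 1 / 2 + 2 * a - η ∧ ∀ N Z Y : ℕ, 1 ≤ N → 2000 ≤ Z →
      (Z : ℝ) ≤ (N : ℝ) ^ a → ∃ E : ℕ, (E : ℝ) ≤ C * (N : ℝ) ^ s ∧
      (∀ S ⊆ Rset p Z Y (Z ^ p), (∀ u ∈ S, ∃ d b : ℕ, 0 < d ∧ d ≤ 1024 * Z ^ 4 ∧ 0 < b ∧
        u.2 ^ 2 + d * b ^ 2 = 4 * (u.1.1 * u.1.2) ^ p) → S.card ≤ E) := by
    rcases le_total (3 / (4 * (p : ℝ))) (1 / 8) with hcase | hcase
    · -- first case
      refine ⟨324 * 1024, 6 * a, by norm_num, ?_, ?_⟩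
      · have : a ≤ 1 / 8 - δ := by
          have h1 : θ ≤ 1 / 8 := (min_le_right _ _).trans (max_le (le_refl _) hcase)
          rw [ha]; linarith
        rw [hη]; linarith
      · intro N Z Y hN1 hZ hZN
        refine ⟨324 * Z ^ 2 * (1024 * Z ^ 4), ?_, ?_⟩
        · have hN0 : (0 : ℝ) < N := by exact_mod_cast hN1
          have : (Z : ℝ) ^ 6 ≤ (N : ℝ) ^ (6 * a) := by
            have h2 : ((N : ℝ) ^ a) ^ 6 = (N : ℝ) ^ (6 * a) := by
              rw [← Real.rpow_natCast, ← Real.rpow_mul hN0.le]; congr 1; push_cast; ring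
            rw [← h2]
            exact pow_le_pow_left₀ (by positivity) hZN 6
          push_cast
          nlinarith
        · exact bad_disc p Z Y (Z ^ p) (1024 * Z ^ 4) (by omega) (by omega)
    · -- second case
      have ha4 : p * a ≤ 3 / 4 - p * δ := by
        have h1 : θ ≤ 3 / (4 * p) := (min_le_right _ _).trans (max_le hcase (le_refl _))
        have h2 : p * θ ≤ 3 / 4 := by
          calc p * θ ≤ p * (3 / (4 * p)) := mul_le_mul_of_nonneg_left h1 hp0.le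
            _ = 3 / 4 := by field_simp
        rw [hpa]; linarith
      obtain ⟨C, hC, hE⟩ := errB_le p a δ η hδ0 (by linarith) hη0
      set s : ℝ := max (2 * a + 2 * (p * a) - 1 + 2 * δ) (2 * a + (1 / 2 - δ) * (1 + 2 * η)) with hs
      refine ⟨2 * C, s, by linarith, ?_, ?_⟩
      · rw [hs]
        apply max_lt
        · have : 5 * δ ≤ p * δ := mul_le_mul_of_nonneg_right hpR hδ0.le
          rw [hη]; linarith
        · rw [hη]; nlinarith
      · intro N Z Y hN1 hZ hZN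
        refine ⟨errB p Z ⌊(N : ℝ) ^ (1 / 2 - δ)⌋₊, ?_, bad_caseB p Z Y _ hp hZ⟩
        have hN1' : (1 : ℝ) ≤ N := by exact_mod_cast hN1
        refine (hE N Z hN1 hZN).trans ?_
        have e1 : (N : ℝ) ^ (2 * a + 2 * (p * a) - 1 + 2 * δ) ≤ (N : ℝ) ^ s :=
          Real.rpow_le_rpow_of_exponent_le hN1' (le_max_left _ _)
        have e2 : (N : ℝ) ^ (2 * a + (1 / 2 - δ) * (1 + 2 * η)) ≤ (N : ℝ) ^ s :=
          Real.rpow_le_rpow_of_exponent_le hN1' (le_max_right _ _)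
        nlinarith
  obtain ⟨C, s, hC, hs, herr⟩ := herr
  have g1 : 0 < (1 / 2 + 2 * a - η) - s := by linarith
  have g2 : 0 < ε - 2 * δ - η := by rw [hη]; linarith
  filter_upwards [hpar 2000, ev_rpow _ g1 (2 * C / c), ev_rpow _ g2 (2 / c),
    eventually_ge_atTop 1] with N hN hg1 hg2 hN1
  obtain ⟨Z, Y, hZ, hY, hZl, hZu, hT2, hdisc, hR⟩ := hN
  have hN0 : (0 : ℝ) < N := by exact_mod_cast hN1
  obtain ⟨E, hE, hbad⟩ := herr N Z Y hN1 hZ hZu
  have hmain := main_ineq p Z Y (Z ^ p) N E (by omega) hY (by omega) hT2 hdisc f hf hbad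
  refine le_trans ?_ hmain
  set X : ℝ := (N : ℝ) with hX
  have e1 : C * X ^ s ≤ c / 2 * X ^ (1 / 2 + 2 * a - η) := by
    have : X ^ (1 / 2 + 2 * a - η) = X ^ ((1 / 2 + 2 * a - η) - s) * X ^ s := by
      rw [← Real.rpow_add hN0]; congr 1; ring
    rw [this]
    have h1 : C ≤ c / 2 * X ^ ((1 / 2 + 2 * a - η) - s) := by
      rw [div_le_iff₀ hc] at hg1
      linarith
    have h2 : 0 < X ^ s := by positivity
    calc C * X ^ s ≤ (c / 2 * X ^ ((1 / 2 + 2 * a - η) - s)) * X ^ s :=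
          mul_le_mul_of_nonneg_right h1 h2.le
      _ = _ := by ring
  have e2 : X ^ (1 / 2 + 2 * θ - ε) ≤ c / 2 * X ^ (1 / 2 + 2 * a - η) := by
    have : X ^ (1 / 2 + 2 * a - η) = X ^ (ε - 2 * δ - η) * X ^ (1 / 2 + 2 * θ - ε) := by
      rw [← Real.rpow_add hN0]; congr 1; rw [ha]; ring
    rw [this]
    have h1 : 1 ≤ c / 2 * X ^ (ε - 2 * δ - η) := by
      rw [div_le_iff₀ hc] at hg2
      linarith
    have h2 : 0 < X ^ (1 / 2 + 2 * θ - ε) := by positivity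
    calc X ^ (1 / 2 + 2 * θ - ε) = 1 * X ^ (1 / 2 + 2 * θ - ε) := (one_mul _).symm
      _ ≤ (c / 2 * X ^ (ε - 2 * δ - η)) * X ^ (1 / 2 + 2 * θ - ε) :=
          mul_le_mul_of_nonneg_right h1 h2.le
      _ = _ := by ring
  linarith

end Pool.Agent.helper9.Tors
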