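import Pool.Agent.helper9.Tors.Exist
import Pool.Agent.helper9.Tors.Cls

set_option autoImplicit false

open NumberField Module

namespace Pool.Agent.helper9.Tors

/-- `D` is the discriminant of a quadratic field. -/
def QD (D : ℤ) : Prop :=
  ∃ (K : Type) (_ : Field K) (_ : NumberField K), finrank ℚ K = 2 ∧ discr K = D

variable {K : Type} [Field K] [NumberField K]

/-- Stickelberger's theorem for quadratic fields. -/
theorem stickelberger (h2 : finrank ℚ K = 2) : discr K % 4 = 0 ∨ discr K % 4 = 1 := by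
  by_contra hcon
  push Not at hcon
  have hr : finrank ℤ (𝓞 K) = 2 := by rw [RingOfIntegers.rank, h2]
  let e : Basis (Fin 2) ℤ (𝓞 K) := Module.finBasisOfFinrankEq ℤ (𝓞 K) hr
  have key : ∀ α : 𝓞 K, (2 : ℤ) ∣ (e.toMatrix ![1, α]).det := by
    intro α
    obtain ⟨t, n, q1, q2, q3⟩ := quad_rel' h2 e α
    set B : ℤ := (e.toMatrix ![1, α]).det
    by_contra hodd
    have hB : B % 2 = 1 := by omega
    have hB2 : B ^ 2 % 4 = 1 := by
      obtain ⟨c, hc⟩ : ∃ c, B = 2 * c + 1 := ⟨B / 2, by omega⟩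
      rw [hc]
      have : (2 * c + 1) ^ 2 = 4 * (c ^ 2 + c) + 1 := by ring
      omega
    have hBD : (B ^ 2 * discr K) % 4 = discr K % 4 := by
      rw [Int.mul_emod, hB2, one_mul, Int.emod_emod_of_dvd _ (dvd_refl 4)]
    rw [← q3] at hBD
    have hs3 : t ^ 2 % 4 = 0 ∨ t ^ 2 % 4 = 1 := by
      rcases Int.emod_two_eq_zero_or_one t with h | h
      · left
        obtain ⟨c, hc⟩ : ∃ c, t = 2 * c := ⟨t / 2, by omega⟩
        rw [hc]
        have : (2 * c) ^ 2 = 4 * c ^ 2 := by ring
        omega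
      · right
        obtain ⟨c, hc⟩ : ∃ c, t = 2 * c + 1 := ⟨t / 2, by omega⟩
        rw [hc]
        have : (2 * c + 1) ^ 2 = 4 * (c ^ 2 + c) + 1 := by ring
        omega
    omega
  -- apply to the basis vectors
  have k0 := key (e 0)
  have k1 := key (e 1)
  rw [Matrix.det_fin_two] at k0 k1
  simp only [Basis.toMatrix_apply, Matrix.cons_val_zero, Matrix.cons_val_one, Basis.repr_self]
    at k0 k1
  have e00 : (Finsupp.single (0 : Fin 2) (1 : ℤ)) 0 = 1 := by simp
  have e01 : (Finsupp.single (0 : Fin 2) (1 : ℤ)) 1 = 0 := by simp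
  have e10 : (Finsupp.single (1 : Fin 2) (1 : ℤ)) 0 = 0 := by simp
  have e11 : (Finsupp.single (1 : Fin 2) (1 : ℤ)) 1 = 1 := by simp
  rw [e00, e01] at k0
  rw [e10, e11] at k1
  have h1 : (2 : ℤ) ∣ e.repr 1 1 := by omega
  have h0 : (2 : ℤ) ∣ e.repr 1 0 := by omega
  obtain ⟨u, hu⟩ := h0
  obtain ⟨v, hv⟩ := h1
  have hone : (1 : 𝓞 K) = ((2 : ℤ) : 𝓞 K) * ((u : 𝓞 K) * e 0 + (v : 𝓞 K) * e 1) := by
    have := e.sum_repr (1 : 𝓞 K)
    rw [Fin.sum_univ_two, hu, hv, zsmul_eq_mul, zsmul_eq_mul] at this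
    rw [← this]
    push_cast
    ring
  have hdvd : ((2 : ℤ) : 𝓞 K) ∣ ((1 : ℤ) : 𝓞 K) := ⟨_, by rw [← hone]; push_cast; rfl⟩
  have := dvd_of_dvd h2 2 1 hdvd
  omega

/-- The explicit form of the condition that `D < 0` is a fundamental discriminant. -/
theorem qd_iff (D : ℤ) (hD : D < 0) : QD D ↔
    ((D % 4 = 1 ∧ D ≠ 1 ∧ Squarefree D) ∨
      (∃ m : ℤ, D = 4 * m ∧ (m % 4 = 2 ∨ m % 4 = 3) ∧ Squarefree m)) := by
  constructor
  · rintro ⟨K, hF, hNF, h2, rfl⟩
    obtain ⟨δ, hδ⟩ := exists_sqrt h2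
    have hq : ∀ q : ℕ, q.Prime → q ≠ 2 → ¬ (q : ℤ) * q ∣ discr K := by
      intro q hq hq2 hd
      have h3 : 2 < q := lt_of_le_of_ne hq.two_le (Ne.symm hq2)
      exact not_sq_dvd h2 hD q (by exact_mod_cast h3) (by rw [sq]; exact hd)
    have hsf : ∀ n : ℤ, n ≠ 0 → (∀ q : ℕ, q.Prime → ¬ (q : ℤ) * q ∣ n) → Squarefree n := by
      intro n hn h
      rw [← Int.squarefree_natAbs, Nat.squarefree_iff_prime_squarefree]
      intro q hq hd
      apply h q hq
      have : ((q * q : ℕ) : ℤ) ∣ n := Int.natCast_dvd.mpr hd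
      exact_mod_cast this
    rcases stickelberger h2 with h | h
    · right
      obtain ⟨m, hm⟩ : ∃ m, discr K = 4 * m := ⟨discr K / 4, by omega⟩
      have hm0 : m ≠ 0 := by rintro rfl; omega
      have hm4 : m % 4 = 2 ∨ m % 4 = 3 := by
        by_contra hcon
        have h01 : m % 4 = 0 ∨ m % 4 = 1 := by omega
        obtain ⟨T, N, hTN⟩ : ∃ T N : ℤ, m = T ^ 2 - 4 * N := by
          rcases h01 with h | h
          · exact ⟨0, -(m / 4), by omega⟩
          · exact ⟨1, -(m / 4), by omega⟩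
        obtain ⟨b, hb⟩ := disc_rel h2 T N (by rw [← hTN]; omega) (δ / 2) (by
          rw [div_pow, hδ, hm, ← hTN]
          push_cast
          ring)
        rw [← hTN, hm] at hb
        have h5 : m * (1 - 4 * b ^ 2) = 0 := by linear_combination hb
        rcases mul_eq_zero.mp h5 with h6 | h6
        · exact hm0 h6
        · omega
      refine ⟨m, hm, hm4, hsf m hm0 ?_⟩
      intro q hqp hd
      by_cases hq2 : q = 2
      · subst hq2
        obtain ⟨c, hc⟩ := hd
        push_cast at hc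
        omega
      · apply hq q hqp hq2
        rw [hm]
        exact Dvd.dvd.mul_left hd _
    · left
      refine ⟨h, by omega, hsf _ (by omega) ?_⟩
      intro q hqp hd
      by_cases hq2 : q = 2
      · subst hq2
        obtain ⟨c, hc⟩ := hd
        push_cast at hc
        omega
      · exact hq q hqp hq2 hd
  · intro h
    obtain ⟨K, hF, hNF, h2, δ, hδ⟩ := exists_field D hD
    have h01 : D % 4 = 0 ∨ D % 4 = 1 := by
      rcases h with h | ⟨m, hm, _⟩
      · exact Or.inr h.1
      · left; omega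
    obtain ⟨T, N, hTN⟩ : ∃ T N : ℤ, D = T ^ 2 - 4 * N := by
      rcases h01 with h | h
      · exact ⟨0, -(D / 4), by omega⟩
      · exact ⟨1, -(D / 4), by omega⟩
    obtain ⟨b, hb⟩ := disc_rel h2 T N (by rw [← hTN]; exact hD) δ (by rw [← hTN]; exact hδ)
    rw [← hTN] at hb
    have hst := stickelberger h2
    refine ⟨K, hF, hNF, h2, ?_⟩
    have hunit : ∀ c : ℤ, IsUnit c → c ^ 2 = 1 := by
      intro c hc
      rcases Int.isUnit_iff.mp hc with rfl | rfl <;> norm_num
    rcases h with ⟨h4, h1, hsq⟩ | ⟨m, hm, hm4, hsq⟩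
    · have hbu : IsUnit b := hsq b ⟨discr K, by rw [← sq]; exact hb⟩
      rw [hunit b hbu, one_mul] at hb
      exact hb.symm
    · rcases Int.emod_two_eq_zero_or_one b with hbe | hbo
      · exfalso
        obtain ⟨c, hc⟩ : ∃ c, b = 2 * c := ⟨b / 2, by omega⟩
        rw [hm, hc] at hb
        have hmc : m = c ^ 2 * discr K := by linarith [hb, (by ring : (2 * c) ^ 2 * discr K
          = 4 * (c ^ 2 * discr K))]
        have hcu : IsUnit c := hsq c ⟨discr K, by rw [← sq]; exact hmc⟩
        rw [hunit c hcu, one_mul] at hmc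
        omega
      · have hcop : IsCoprime (b * b) 4 := by
          have h2b : IsCoprime b 2 := by
            rw [Int.isCoprime_iff_gcd_eq_one]
            have : b.gcd 2 ∣ 2 := by exact_mod_cast Int.gcd_dvd_right b 2
            rcases (Nat.dvd_prime Nat.prime_two).mp this with h | h
            · exact h
            · exfalso
              have h7 : ((b.gcd 2 : ℕ) : ℤ) ∣ b := Int.gcd_dvd_left b 2
              rw [h] at h7
              omega
          have : (4 : ℤ) = 2 * 2 := by norm_num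
          rw [this]
          exact (h2b.mul_left h2b).mul_right (h2b.mul_left h2b)
        have hd : b * b ∣ m := by
          apply hcop.dvd_of_dvd_mul_left
          rw [← hm, hb, sq]
          exact dvd_mul_right _ _
        have hbu : IsUnit b := hsq b hd
        rw [hunit b hbu, one_mul] at hb
        exact hb.symm

end Pool.Agent.helper9.Tors
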