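import Pool.Agent.helper9.Tors.Sum

set_option autoImplicit false

namespace Pool.Agent.helper9.Tors

open Finset NumberField Module

theorem prs_inj {Z : ℕ} {q q' : ℕ × ℕ} (hq : q ∈ prs Z) (hq' : q' ∈ prs Z)
    (h : q.1 * q.2 = q'.1 * q'.2) : q = q' := by
  obtain ⟨h1, h2, _, _, h5, _, _⟩ := prs_facts hq
  obtain ⟨h1', h2', _, _, h5', _, _⟩ := prs_facts hq'
  have hd : q.1 ∣ q'.1 * q'.2 := h ▸ dvd_mul_right _ _
  rcases (h1.dvd_mul).mp hd with h6 | h6
  · have e1 := (Nat.prime_dvd_prime_iff_eq h1 h1').mp h6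
    rw [e1] at h
    have e2 := Nat.eq_of_mul_eq_mul_left h1'.pos h
    exact Prod.ext e1 e2
  · have e1 := (Nat.prime_dvd_prime_iff_eq h1 h2').mp h6
    rw [e1, mul_comm q'.1 q'.2] at h
    have e2 := Nat.eq_of_mul_eq_mul_left h2'.pos h
    omega

open Classical in
/-- The finite form of the main inequality. -/
theorem main_ineq (p Z Y T N E : ℕ) (hp : p ≠ 0) (hY : 2 ≤ Y) (hZ : 2 ≤ Z)
    (hT2 : T ^ 2 < 4 * (Z ^ 2) ^ p) (hN : 4 * (16 * Z ^ 2) ^ p ≤ N * Y ^ 2)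
    (f : ℤ → ℕ)
    (hf : ∀ (K : Type) [Field K] [NumberField K], finrank ℚ K = 2 →
      f (discr K) = Nat.card {x : ClassGroup (𝓞 K) // x ^ p = 1})
    (hbad : ∀ S ⊆ Rset p Z Y T, (∀ u ∈ S, ∃ d b : ℕ, 0 < d ∧ d ≤ 1024 * Z ^ 4 ∧ 0 < b ∧
      u.2 ^ 2 + d * b ^ 2 = 4 * (u.1.1 * u.1.2) ^ p) → S.card ≤ E) :
    ((Rset p Z Y T).card : ℝ) - E ≤
      ∑ D ∈ (Finset.Ioo (-(N : ℤ)) 0).filter QD, ((f D : ℝ) - 1) := by
  have hex : ∀ u : (ℕ × ℕ) × ℕ, ∃ D : ℤ, u ∈ Rset p Z Y T → (QD D ∧ -(N : ℤ) < D ∧ D < 0 ∧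
      ∃ b : ℕ, 0 < b ∧ u.2 ^ 2 + (-D).toNat * b ^ 2 = 4 * (u.1.1 * u.1.2) ^ p) := by
    intro u
    by_cases hu : u ∈ Rset p Z Y T
    · obtain ⟨D, hD⟩ := exists_disc p Z Y T N hY hT2 hN u hu
      exact ⟨D, fun _ => hD⟩
    · exact ⟨0, fun h => absurd h hu⟩
  choose D hD using hex
  set R := Rset p Z Y T with hR
  set F := (Finset.Ioo (-(N : ℤ)) 0).filter QD with hF
  set G := R.filter (fun u => (1024 * (Z : ℤ) ^ 4) < -D u) with hG
  set Bd := R.filter (fun u => ¬ (1024 * (Z : ℤ) ^ 4) < -D u) with hBd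
  have hcard : G.card + Bd.card = R.card := Finset.card_filter_add_card_filter_not _
  have hBdE : Bd.card ≤ E := by
    apply hbad Bd (Finset.filter_subset _ _)
    intro u hu
    rw [hBd, mem_filter] at hu
    obtain ⟨h1, h2, h3, b, hb0, hb⟩ := hD u hu.1
    refine ⟨(-D u).toNat, b, by omega, ?_, hb0, hb⟩
    have h4 : -D u ≤ 1024 * (Z : ℤ) ^ 4 := not_lt.mp hu.2
    have h5 : (((-D u).toNat : ℕ) : ℤ) ≤ ((1024 * Z ^ 4 : ℕ) : ℤ) := by
      rw [Int.toNat_of_nonneg (by linarith)]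
      push_cast
      exact h4
    exact_mod_cast h5
  have hmaps : ∀ u ∈ G, D u ∈ F := by
    intro u hu
    rw [hG, mem_filter] at hu
    obtain ⟨h1, h2, h3, _⟩ := hD u hu.1
    rw [hF, mem_filter, mem_Ioo]
    exact ⟨⟨h2, h3⟩, h1⟩
  have hGsum : G.card = ∑ d ∈ F, (G.filter (fun u => D u = d)).card :=
    Finset.card_eq_sum_card_fiberwise hmaps
  have hfib : ∀ d ∈ F, ((G.filter (fun u => D u = d)).card : ℝ) ≤ (f d : ℝ) - 1 := by
    intro d hd
    rw [hF, mem_filter, mem_Ioo] at hd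
    obtain ⟨⟨hd1, hd2⟩, K, hFK, hNF, hrank, hdisc⟩ := hd
    have hfd : f d = Nat.card {x : ClassGroup (𝓞 K) // x ^ p = 1} := by
      rw [← hdisc]; exact hf K hrank
    have hnat : (G.filter (fun u => D u = d)).card + 1 ≤ f d := by
      rcases (G.filter (fun u => D u = d)).eq_empty_or_nonempty with he | ⟨w, hw⟩
      · rw [he, Finset.card_empty, hfd]
        exact card_torsion hrank (by rw [hdisc]; exact hd2) p hp ∅ 0
          (by rw [hdisc]; simpa using hd2) (by simp)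
      · have hbig : (1024 * (Z : ℤ) ^ 4) < -d := by
          rw [mem_filter, hG, mem_filter] at hw
          rw [← hw.2]; exact hw.1.2
        let g : (ℕ × ℕ) × ℕ → ℕ × ℕ := fun u => (u.1.1 * u.1.2, u.2)
        have hinj : Set.InjOn g ((G.filter (fun u => D u = d) : Finset _) : Set _) := by
          intro u hu v hv huv
          rw [Finset.mem_coe, mem_filter, hG, mem_filter] at hu hv
          obtain ⟨e1, e2⟩ := Prod.mk.inj huv
          exact Prod.ext (prs_inj (mem_Rset.mp hu.1.1).1.1 (mem_Rset.mp hv.1.1).1.1 e1) e2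
        rw [← Finset.card_image_of_injOn hinj, hfd]
        apply card_torsion hrank (by rw [hdisc]; exact hd2) p hp _ (16 * Z ^ 2)
        · rw [hdisc]
          push_cast
          have : 4 * (16 * (Z : ℤ) ^ 2 * (16 * (Z : ℤ) ^ 2)) = 1024 * (Z : ℤ) ^ 4 := by ring
          rw [this]
          exact hbig
        · intro s hs
          obtain ⟨u, hu, rfl⟩ := Finset.mem_image.mp hs
          rw [mem_filter, hG, mem_filter] at hu
          obtain ⟨⟨huR, _⟩, huD⟩ := hu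
          obtain ⟨⟨hq, hx1, hxT⟩, hcop, _⟩ := mem_Rset.mp huR
          obtain ⟨q1, q2, q3, q4, q5, hm1, hm2⟩ := prs_facts hq
          obtain ⟨h1, h2, h3, b, hb0, hb⟩ := hD u huR
          refine ⟨?_, hm2, hcop, ?_, b, ?_⟩
          · have : 4 ≤ Z ^ 2 := by nlinarith
            show 1 < u.1.1 * u.1.2
            omega
          · show u.2 ^ 2 < 4 * (u.1.1 * u.1.2) ^ p
            calc u.2 ^ 2 ≤ T ^ 2 := Nat.pow_le_pow_left hxT 2
              _ < 4 * (Z ^ 2) ^ p := hT2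
              _ ≤ 4 * (u.1.1 * u.1.2) ^ p :=
                Nat.mul_le_mul_left _ (Nat.pow_le_pow_left hm1 p)
          · show ((u.2 : ℕ) : ℤ) ^ 2 - 4 * ((u.1.1 * u.1.2 : ℕ) : ℤ) ^ p = (b : ℤ) ^ 2 * discr K
            have h6 : (((-D u).toNat : ℕ) : ℤ) = -D u := Int.toNat_of_nonneg (by linarith)
            have h7 : ((u.2 : ℕ) : ℤ) ^ 2 + (((-D u).toNat : ℕ) : ℤ) * (b : ℤ) ^ 2
                = 4 * ((u.1.1 * u.1.2 : ℕ) : ℤ) ^ p := by exact_mod_cast hb
            rw [h6, huD] at h7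
            rw [hdisc]
            linarith
    have : ((G.filter (fun u => D u = d)).card : ℝ) + 1 ≤ f d := by exact_mod_cast hnat
    linarith
  calc ((R.card : ℝ)) - E ≤ (G.card : ℝ) := by
        have h1 : (G.card : ℝ) + Bd.card = R.card := by exact_mod_cast hcard
        have h2 : (Bd.card : ℝ) ≤ E := by exact_mod_cast hBdE
        linarith
    _ = ∑ d ∈ F, ((G.filter (fun u => D u = d)).card : ℝ) := by
        rw [hGsum]; push_cast; rfl
    _ ≤ ∑ d ∈ F, ((f d : ℝ) - 1) := Finset.sum_le_sum hfib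

end Pool.Agent.helper9.Tors
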