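import Mathlib

set_option autoImplicit false

open Filter Topology Asymptotics

namespace Pool.Agent.helper9.Tors

/-- Primes in `(Z, 4Z]`. -/
def prm (Z : ℕ) : Finset ℕ := (Finset.Ioc Z (4 * Z)).filter Nat.Prime

theorem mem_prm {Z q : ℕ} : q ∈ prm Z ↔ (Z < q ∧ q ≤ 4 * Z) ∧ q.Prime := by
  simp [prm]

theorem theta_sub (Z : ℕ) (hZ : 1 ≤ Z) :
    Chebyshev.theta ((4 * Z : ℕ) : ℝ) - Chebyshev.theta (Z : ℝ)
      ≤ (prm Z).card * Real.log (4 * Z) := by
  have h1 : Chebyshev.theta ((4 * Z : ℕ) : ℝ) - Chebyshev.theta (Z : ℝ)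
      = ∑ q ∈ prm Z, Real.log q := by
    rw [Chebyshev.theta_eq_sum_Icc, Chebyshev.theta_eq_sum_Icc, Nat.floor_natCast,
      Nat.floor_natCast]
    have h2 : (Finset.Icc 0 (4 * Z)).filter Nat.Prime
        = (Finset.Icc 0 Z).filter Nat.Prime ∪ prm Z := by
      ext q
      simp only [Finset.mem_union, Finset.mem_filter, Finset.mem_Icc, mem_prm]
      constructor
      · rintro ⟨⟨_, h⟩, hq⟩
        by_cases hc : q ≤ Z
        · left; exact ⟨⟨Nat.zero_le _, hc⟩, hq⟩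
        · right; exact ⟨⟨by omega, h⟩, hq⟩
      · rintro (⟨⟨_, h⟩, hq⟩ | ⟨⟨h1, h⟩, hq⟩)
        · exact ⟨⟨Nat.zero_le _, by omega⟩, hq⟩
        · exact ⟨⟨Nat.zero_le _, h⟩, hq⟩
    have h3 : Disjoint ((Finset.Icc 0 Z).filter Nat.Prime) (prm Z) := by
      rw [Finset.disjoint_left]
      intro q hq hq'
      rw [mem_prm] at hq'
      simp only [Finset.mem_filter, Finset.mem_Icc] at hq
      omega
    rw [h2, Finset.sum_union h3]
    ring
  rw [h1]
  calc ∑ q ∈ prm Z, Real.log q ≤ ∑ q ∈ prm Z, Real.log (4 * Z) := by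
        apply Finset.sum_le_sum
        intro q hq
        rw [mem_prm] at hq
        apply Real.log_le_log
        · exact_mod_cast hq.2.pos
        · exact_mod_cast hq.1.2
    _ = (prm Z).card * Real.log (4 * Z) := by rw [Finset.sum_const, nsmul_eq_mul]

theorem log_small (s c : ℝ) (hs : 0 < s) (hc : 0 < c) :
    ∀ᶠ z : ℝ in atTop, Real.log (4 * z) ≤ c * z ^ s := by
  have h1 : ∀ᶠ z : ℝ in atTop, Real.log z ≤ c / 2 * z ^ s := by
    have := (isLittleO_log_rpow_atTop hs).bound (half_pos hc)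
    filter_upwards [this, eventually_ge_atTop (1 : ℝ)] with z hz hz1
    rw [Real.norm_eq_abs, Real.norm_eq_abs, abs_of_nonneg (Real.log_nonneg hz1),
      abs_of_nonneg (Real.rpow_nonneg (by linarith) _)] at hz
    exact hz
  have h2 : ∀ᶠ z : ℝ in atTop, Real.log 4 ≤ c / 2 * z ^ s := by
    have : Tendsto (fun z : ℝ => c / 2 * z ^ s) atTop atTop :=
      (tendsto_rpow_atTop hs).const_mul_atTop (half_pos hc)
    exact this.eventually_ge_atTop _
  filter_upwards [h1, h2, eventually_gt_atTop (0 : ℝ)] with z h1 h2 hz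
  rw [Real.log_mul (by norm_num) hz.ne']
  linarith

theorem prm_card (η : ℝ) (hη : 0 < η) (hη1 : η ≤ 1 / 2) :
    ∀ᶠ Z : ℕ in atTop, (Z : ℝ) ^ (1 - η) ≤ (prm Z).card := by
  have hcast : Tendsto (fun Z : ℕ => (Z : ℝ)) atTop atTop := tendsto_natCast_atTop_atTop
  filter_upwards [hcast.eventually (log_small η (1 / 32) hη (by norm_num)),
    hcast.eventually (log_small (1 / 2) (1 / 32) (by norm_num) (by norm_num)),
    eventually_ge_atTop 2] with Z h1 h2 hZ
  have hZr : (2 : ℝ) ≤ Z := by exact_mod_cast hZ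
  have hZ0 : (0 : ℝ) < Z := by linarith
  have hlogpos : 0 < Real.log (4 * Z) := Real.log_pos (by linarith)
  have h3 := theta_sub Z (by omega)
  have h4 := Chebyshev.theta_ge (4 * Z)
  have h5 := Chebyshev.theta_le_log4_mul_x hZ0.le
  have hlog4 : Real.log 4 = 2 * Real.log 2 := by
    rw [show (4 : ℝ) = 2 ^ 2 by norm_num, Real.log_pow]; norm_num
  rw [hlog4] at h5
  push_cast at h3 h4
  have hs : √(4 * (Z : ℝ)) = 2 * √Z := by
    rw [Real.sqrt_mul (by norm_num), show (4 : ℝ) = 2 ^ 2 by norm_num, Real.sqrt_sq (by norm_num)]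
  rw [hs] at h4
  have hsq : √(Z : ℝ) * (Z : ℝ) ^ (1 / 2 : ℝ) = Z := by
    rw [← Real.sqrt_eq_rpow, Real.mul_self_sqrt hZ0.le]
  have h6 : Real.log (4 * (Z : ℝ) + 1) ≤ Real.log (4 * Z) + 1 := by
    have : Real.log (4 * (Z : ℝ) + 1) ≤ Real.log (4 * Z * 2) := by
      apply Real.log_le_log (by linarith) (by linarith)
    rw [Real.log_mul (by linarith) (by norm_num)] at this
    have h7 : Real.log 2 ≤ 1 := by
      have := Real.log_two_lt_d9
      linarith
    linarith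
  have hl2 : (0.69 : ℝ) < Real.log 2 := by
    have := Real.log_two_gt_d9
    linarith
  have h8 : √(Z : ℝ) * Real.log (4 * Z) ≤ Z / 32 := by
    calc √(Z : ℝ) * Real.log (4 * Z) ≤ √(Z : ℝ) * (1 / 32 * (Z : ℝ) ^ (1 / 2 : ℝ)) := by
          apply mul_le_mul_of_nonneg_left h2 (Real.sqrt_nonneg _)
      _ = (√(Z : ℝ) * (Z : ℝ) ^ (1 / 2 : ℝ)) / 32 := by ring
      _ = Z / 32 := by rw [hsq]
  have h9 : Real.log (4 * (Z : ℝ)) ≤ Z / 32 := by
    have h10 : (Z : ℝ) ^ (1 / 2 : ℝ) ≤ Z := by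
      calc (Z : ℝ) ^ (1 / 2 : ℝ) ≤ (Z : ℝ) ^ (1 : ℝ) :=
            Real.rpow_le_rpow_of_exponent_le (by linarith) (by norm_num)
        _ = Z := Real.rpow_one _
    linarith
  have h11 : (Z : ℝ) / 16 ≤ (prm Z).card * Real.log (4 * Z) := by
    nlinarith
  -- conclude
  have h12 : (Z : ℝ) ^ (1 - η) * Real.log (4 * Z) ≤ Z / 32 := by
    calc (Z : ℝ) ^ (1 - η) * Real.log (4 * Z) ≤ (Z : ℝ) ^ (1 - η) * (1 / 32 * (Z : ℝ) ^ η) :=
          mul_le_mul_of_nonneg_left h1 (Real.rpow_nonneg hZ0.le _)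
      _ = ((Z : ℝ) ^ (1 - η) * (Z : ℝ) ^ η) / 32 := by ring
      _ = Z / 32 := by
          rw [← Real.rpow_add hZ0]; simp
  have h13 : (Z : ℝ) ^ (1 - η) * Real.log (4 * Z) ≤ (prm Z).card * Real.log (4 * Z) := by
    linarith
  exact le_of_mul_le_mul_right h13 hlogpos

end Pool.Agent.helper9.Tors
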