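import Pool.Agent.helper9.Tors.Count
import Pool.Agent.helper9.Tors.Few
import Pool.Agent.helper9.Tors.Divs
import Pool.Agent.helper9.Tors.Card
import Pool.Agent.helper9.Tors.Exist
import Pool.Agent.helper9.Tors.Fund

set_option autoImplicit false

namespace Pool.Agent.helper9.Tors

open Finset NumberField Module


theorem card_prm_le (Z : ℕ) : (prm Z).card ≤ 3 * Z := by
  calc (prm Z).card ≤ (Finset.Ioc Z (4 * Z)).card := Finset.card_filter_le _ _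
    _ = 3 * Z := by rw [Nat.card_Ioc]; omega

theorem card_prs_le (Z : ℕ) : (prs Z).card ≤ 9 * Z ^ 2 := by
  calc (prs Z).card ≤ (prm Z ×ˢ prm Z).card := Finset.card_filter_le _ _
    _ = (prm Z).card * (prm Z).card := Finset.card_product _ _
    _ ≤ (3 * Z) * (3 * Z) := Nat.mul_le_mul (card_prm_le Z) (card_prm_le Z)
    _ = 9 * Z ^ 2 := by ring

/-- Basic facts about a pair of primes. -/
theorem prs_facts {Z : ℕ} {q : ℕ × ℕ} (hq : q ∈ prs Z) : q.1.Prime ∧ q.2.Prime ∧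
    Z < q.1 ∧ Z < q.2 ∧ q.1 < q.2 ∧ Z ^ 2 ≤ q.1 * q.2 ∧ q.1 * q.2 ≤ 16 * Z ^ 2 := by
  rw [mem_prs, mem_prm, mem_prm] at hq
  obtain ⟨⟨h1, h2⟩, h3⟩ := hq
  refine ⟨h1.2, h2.2, h1.1.1, h2.1.1, h3, ?_, ?_⟩
  · rw [sq]; exact Nat.mul_le_mul h1.1.1.le h2.1.1.le
  · calc q.1 * q.2 ≤ (4 * Z) * (4 * Z) := Nat.mul_le_mul h1.1.2 h2.1.2
      _ = 16 * Z ^ 2 := by ring

/-- Triples with a small discriminant: bound through the discriminant. -/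
theorem bad_disc (p Z Y T W : ℕ) (hp : p ≠ 0) (hZ : 2 ≤ Z) :
    ∀ S ⊆ Rset p Z Y T, (∀ u ∈ S, ∃ d b : ℕ, 0 < d ∧ d ≤ W ∧ 0 < b ∧
      u.2 ^ 2 + d * b ^ 2 = 4 * (u.1.1 * u.1.2) ^ p) → S.card ≤ 324 * Z ^ 2 * W := by
  classical
  intro S hSR hS
  let X : ℕ × ℕ → ℕ → Finset ((ℕ × ℕ) × ℕ) := fun q d =>
    S.filter (fun u => u.1 = q ∧ ∃ b : ℕ, 0 < b ∧ u.2 ^ 2 + d * b ^ 2 = 4 * (u.1.1 * u.1.2) ^ p)
  have hX : ∀ q ∈ prs Z, ∀ d ∈ Finset.Icc 1 W, (X q d).card ≤ 36 := by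
    intro q hq d hd
    rw [Finset.mem_Icc] at hd
    obtain ⟨h1, h2, h3, h4, h5, _, _⟩ := prs_facts hq
    have hex : ∀ u : ((ℕ × ℕ) × ℕ), ∃ b : ℕ, u ∈ X q d →
        (0 < b ∧ u.2 ^ 2 + d * b ^ 2 = 4 * (u.1.1 * u.1.2) ^ p) := by
      intro u
      by_cases hu : u ∈ X q d
      · obtain ⟨b, hb⟩ := (Finset.mem_filter.mp hu).2.2
        exact ⟨b, fun _ => hb⟩
      · exact ⟨0, fun h => absurd h hu⟩
    choose b hb using hex
    let g : ((ℕ × ℕ) × ℕ) → ℕ × ℕ := fun u => (u.2, b u)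
    have hinj : Set.InjOn g (X q d : Set ((ℕ × ℕ) × ℕ)) := by
      intro u hu v hv huv
      rw [Finset.mem_coe, Finset.mem_filter] at hu hv
      have h6 : u.2 = v.2 := congrArg Prod.fst huv
      exact Prod.ext (hu.2.1.trans hv.2.1.symm) h6
    rw [← Finset.card_image_of_injOn hinj]
    apply few_sols q.1 q.2 p d hp h1 h2 (by omega) (by omega) h5.ne (by omega)
    intro v hv
    obtain ⟨u, hu, rfl⟩ := Finset.mem_image.mp hv
    have hbu := hb u hu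
    have hu' := Finset.mem_filter.mp hu
    have huR := mem_Rset.mp (hSR hu'.1)
    have hq' := hu'.2.1
    refine ⟨hbu.1, ?_, ?_⟩
    · rw [← hq']; exact huR.2.1
    · rw [← hq']; exact hbu.2
  have hcov : S ⊆ (prs Z).biUnion (fun q => (Finset.Icc 1 W).biUnion (fun d => X q d)) := by
    intro u hu
    obtain ⟨d, b, hd0, hdW, hb0, he⟩ := hS u hu
    rw [Finset.mem_biUnion]
    refine ⟨u.1, (mem_Rset.mp (hSR hu)).1.1, ?_⟩
    rw [Finset.mem_biUnion]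
    exact ⟨d, Finset.mem_Icc.mpr ⟨hd0, hdW⟩, Finset.mem_filter.mpr ⟨hu, rfl, b, hb0, he⟩⟩
  calc S.card ≤ _ := Finset.card_le_card hcov
    _ ≤ ∑ q ∈ prs Z, ((Finset.Icc 1 W).biUnion (fun d => X q d)).card := Finset.card_biUnion_le
    _ ≤ ∑ q ∈ prs Z, ∑ d ∈ Finset.Icc 1 W, (X q d).card :=
        Finset.sum_le_sum (fun q _ => Finset.card_biUnion_le)
    _ ≤ ∑ q ∈ prs Z, ∑ d ∈ Finset.Icc 1 W, 36 :=
        Finset.sum_le_sum (fun q hq => Finset.sum_le_sum (fun d hd => hX q hq d hd))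
    _ = (prs Z).card * (W * 36) := by simp
    _ ≤ (9 * Z ^ 2) * (W * 36) := Nat.mul_le_mul_right _ (card_prs_le Z)
    _ = 324 * Z ^ 2 * W := by ring

/-- Triples with a small discriminant: bound through the square divisor. -/
theorem bad_root (p Z Y T B : ℕ) (hZ : 2 ≤ Z) :
    ∀ S ⊆ Rset p Z Y T, (∀ u ∈ S, ∃ b : ℕ, 0 < b ∧ b ≤ B ∧ 4 * T < b ^ 2 ∧
      (b : ℤ) ^ 2 ∣ 4 * ((u.1.1 * u.1.2 : ℕ) : ℤ) ^ p - (u.2 : ℤ) ^ 2) →
    S.card ≤ 9 * Z ^ 2 * ∑ b ∈ Finset.Icc 1 B, ((b ^ 2).divisors).card := by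
  classical
  intro S hSR hS
  let X : ℕ × ℕ → ℕ → Finset ((ℕ × ℕ) × ℕ) := fun q b =>
    S.filter (fun u => u.1 = q ∧ 4 * T < b ^ 2 ∧
      (b : ℤ) ^ 2 ∣ 4 * ((u.1.1 * u.1.2 : ℕ) : ℤ) ^ p - (u.2 : ℤ) ^ 2)
  have hX : ∀ q ∈ prs Z, ∀ b ∈ Finset.Icc 1 B, (X q b).card ≤ ((b ^ 2).divisors).card := by
    intro q hq b hb
    rw [Finset.mem_Icc] at hb
    obtain ⟨h1, h2, h3, h4, h5, _, _⟩ := prs_facts hq
    rcases (X q b).eq_empty_or_nonempty with he | ⟨w, hw⟩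
    · rw [he]; simp
    have hT := (Finset.mem_filter.mp hw).2.2.1
    have hinj : Set.InjOn Prod.snd (X q b : Set ((ℕ × ℕ) × ℕ)) := by
      intro u hu v hv huv
      rw [Finset.mem_coe, Finset.mem_filter] at hu hv
      exact Prod.ext (hu.2.1.trans hv.2.1.symm) huv
    rw [← Finset.card_image_of_injOn hinj]
    apply roots_le_divisors (q.1 * q.2) b T (4 * ((q.1 * q.2 : ℕ) : ℤ) ^ p) ?_ (by omega) hT
      ⟨p, rfl⟩
    · intro x hx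
      obtain ⟨u, hu, rfl⟩ := Finset.mem_image.mp hx
      have hu' := Finset.mem_filter.mp hu
      have huR := mem_Rset.mp (hSR hu'.1)
      have hq' := hu'.2.1
      refine ⟨huR.1.2.2, ?_, ?_⟩
      · rw [← hq']; exact huR.2.1
      · rw [← hq']; exact hu'.2.2.2
    · intro h
      rcases (Nat.prime_two.dvd_mul).mp h with h | h
      · have := (Nat.prime_dvd_prime_iff_eq Nat.prime_two h1).mp h
        omega
      · have := (Nat.prime_dvd_prime_iff_eq Nat.prime_two h2).mp h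
        omega
  have hcov : S ⊆ (prs Z).biUnion (fun q => (Finset.Icc 1 B).biUnion (fun b => X q b)) := by
    intro u hu
    obtain ⟨b, hb0, hbB, hbT, he⟩ := hS u hu
    rw [Finset.mem_biUnion]
    refine ⟨u.1, (mem_Rset.mp (hSR hu)).1.1, ?_⟩
    rw [Finset.mem_biUnion]
    exact ⟨b, Finset.mem_Icc.mpr ⟨hb0, hbB⟩, Finset.mem_filter.mpr ⟨hu, rfl, hbT, he⟩⟩
  calc S.card ≤ _ := Finset.card_le_card hcov
    _ ≤ ∑ q ∈ prs Z, ((Finset.Icc 1 B).biUnion (fun b => X q b)).card := Finset.card_biUnion_le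
    _ ≤ ∑ q ∈ prs Z, ∑ b ∈ Finset.Icc 1 B, (X q b).card :=
        Finset.sum_le_sum (fun q _ => Finset.card_biUnion_le)
    _ ≤ ∑ q ∈ prs Z, ∑ b ∈ Finset.Icc 1 B, ((b ^ 2).divisors).card :=
        Finset.sum_le_sum (fun q hq => Finset.sum_le_sum (fun b hb => hX q hq b hb))
    _ = (prs Z).card * ∑ b ∈ Finset.Icc 1 B, ((b ^ 2).divisors).card := by
        rw [Finset.sum_const, smul_eq_mul]
    _ ≤ (9 * Z ^ 2) * ∑ b ∈ Finset.Icc 1 B, ((b ^ 2).divisors).card :=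
        Nat.mul_le_mul_right _ (card_prs_le Z)

/-- Every realised triple comes from a negative discriminant. -/
theorem exists_disc (p Z Y T N : ℕ) (hY : 2 ≤ Y) (hT2 : T ^ 2 < 4 * (Z ^ 2) ^ p)
    (hN : 4 * (16 * Z ^ 2) ^ p ≤ N * Y ^ 2) (u : (ℕ × ℕ) × ℕ) (hu : u ∈ Rset p Z Y T) :
    ∃ D : ℤ, QD D ∧ -(N : ℤ) < D ∧ D < 0 ∧ ∃ b : ℕ, 0 < b ∧
      u.2 ^ 2 + (-D).toNat * b ^ 2 = 4 * (u.1.1 * u.1.2) ^ p := by
  obtain ⟨⟨hq, hx1, hxT⟩, hcop, y, hy, hyd⟩ := mem_Rset.mp hu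
  obtain ⟨h1, h2, h3, h4, h5, hm1, hm2⟩ := prs_facts hq
  set m := u.1.1 * u.1.2 with hm
  rw [mem_prm] at hy
  have hx2 : u.2 ^ 2 < 4 * m ^ p := by
    calc u.2 ^ 2 ≤ T ^ 2 := Nat.pow_le_pow_left hxT 2
      _ < 4 * (Z ^ 2) ^ p := hT2
      _ ≤ 4 * m ^ p := Nat.mul_le_mul_left _ (Nat.pow_le_pow_left hm1 p)
  set d : ℤ := (u.2 : ℤ) ^ 2 - 4 * (m : ℤ) ^ p with hd
  have hd0 : d < 0 := by
    have : ((u.2 : ℤ)) ^ 2 < 4 * (m : ℤ) ^ p := by exact_mod_cast hx2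
    rw [hd]; linarith
  obtain ⟨K, hF, hNF, hrank, δ, hδ⟩ := exists_field d hd0
  obtain ⟨b, hb⟩ := disc_rel hrank (u.2 : ℤ) ((m : ℤ) ^ p) (by rw [← hd]; exact hd0) δ
    (by rw [← hd]; exact hδ)
  rw [← hd] at hb
  have hb2 : 0 < b ^ 2 := by
    rcases (sq_nonneg b).lt_or_eq with h | h
    · exact h
    · rw [← h, zero_mul] at hb
      exact absurd hb hd0.ne
  have hD0 : discr K < 0 := by
    by_contra hcon
    push Not at hcon
    have : 0 ≤ b ^ 2 * discr K := mul_nonneg hb2.le hcon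
    linarith
  have hb0 : b ≠ 0 := by rintro rfl; simp at hb2
  have hyI : Prime (y : ℤ) := Nat.prime_iff_prime_int.mp hy.2
  have hyb : (y : ℤ) ∣ b := by
    by_contra hcon
    have hcop' : IsCoprime ((y : ℤ) ^ 2) (b ^ 2) :=
      ((hyI.irreducible.coprime_iff_not_dvd).mpr hcon).pow
    have hdd : (y : ℤ) ^ 2 ∣ b ^ 2 * discr K := by
      rw [← hb, hd]
      have := (dvd_neg (a := (y : ℤ) ^ 2)).mpr hyd
      have e : -(4 * ((m : ℕ) : ℤ) ^ p - (u.2 : ℤ) ^ 2) = (u.2 : ℤ) ^ 2 - 4 * (m : ℤ) ^ p := by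
        ring
      rwa [e] at this
    exact not_sq_dvd hrank hD0 (y : ℤ) (by omega) (hcop'.dvd_of_dvd_mul_left hdd)
  have hyb2 : (y : ℤ) ^ 2 ≤ b ^ 2 := by
    apply Int.le_of_dvd hb2
    exact pow_dvd_pow_of_dvd hyb 2
  have hY2 : ((Y : ℤ)) ^ 2 < (y : ℤ) ^ 2 := by
    have : (Y : ℤ) < y := by exact_mod_cast hy.1.1
    have h0 : (0 : ℤ) ≤ Y := by positivity
    nlinarith
  have hbig : -d ≤ 4 * (16 * (Z : ℤ) ^ 2) ^ p := by
    have h6 : ((m : ℤ)) ≤ 16 * (Z : ℤ) ^ 2 := by exact_mod_cast hm2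
    have h7 : (m : ℤ) ^ p ≤ (16 * (Z : ℤ) ^ 2) ^ p := pow_le_pow_left₀ (by positivity) h6 p
    rw [hd]
    nlinarith [sq_nonneg (u.2 : ℤ)]
  have hNI : 4 * (16 * (Z : ℤ) ^ 2) ^ p ≤ (N : ℤ) * (Y : ℤ) ^ 2 := by exact_mod_cast hN
  refine ⟨discr K, ⟨K, hF, hNF, hrank, rfl⟩, ?_, hD0, b.natAbs, ?_, ?_⟩
  · by_contra hcon
    push Not at hcon
    have h8 : (N : ℤ) ≤ -discr K := by linarith
    have hY0 : (0 : ℤ) < (Y : ℤ) ^ 2 := by positivity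
    have h9 : (N : ℤ) * (Y : ℤ) ^ 2 ≤ (-discr K) * (Y : ℤ) ^ 2 :=
      mul_le_mul_of_nonneg_right h8 hY0.le
    have h10 : (-discr K) * (Y : ℤ) ^ 2 < (-discr K) * b ^ 2 :=
      mul_lt_mul_of_pos_left (by linarith) (by linarith)
    have h11 : (-discr K) * b ^ 2 = -d := by rw [hb]; ring
    linarith
  · exact Int.natAbs_pos.mpr hb0
  · have h12 : ((-discr K).toNat : ℤ) = -discr K := Int.toNat_of_nonneg (by linarith)
    have h13 : ((b.natAbs : ℕ) : ℤ) ^ 2 = b ^ 2 := Int.natAbs_sq b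
    have : ((u.2 ^ 2 + (-discr K).toNat * b.natAbs ^ 2 : ℕ) : ℤ) = ((4 * m ^ p : ℕ) : ℤ) := by
      push_cast
      rw [h12, ← Int.natCast_natAbs, h13]
      linarith
    exact_mod_cast this

end Pool.Agent.helper9.Tors
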